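import Pool.Agent.H47.CofB
import Pool.Agent.H47.CofC

namespace Pool.Agent.Results.MP_18f3df_al.Cof

open Pool.Agent.H47.Cof

theorem parts :
    (∀ (U : Type) [MetricSpace U] [Countable U], RatDist U → Homog U →
      (∀ (Y : Type) [MetricSpace Y] [Finite Y], RatDist Y → ∃ j : Y → U, Isometry j) →
      ¬ FinGen (PolM U) ∧ ¬ CountCof (PolM U)) ∧
    (∀ (U : Type) [MetricSpace U] [Countable U], RatDist U → (∀ a b : U, dist a b ≤ 1) → Homog U →
      (∀ (Y : Type) [MetricSpace Y] [Finite Y], RatDist Y → (∀ a b : Y, dist a b ≤ 1) →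
        ∃ j : Y → U, Isometry j) →
      ¬ FinGen (PolM U) ∧ ¬ CountCof (PolM U)) ∧
    (¬ FinGen PolQ ∧ CountCof PolQ) := by
  refine ⟨fun U _ _ h1 h2 h3 => ?_, fun U _ _ h1 h0 h2 h3 => ?_,
    countCof_Q.not_finGen, countCof_Q⟩
  · have h : Ury false U := ⟨h1, fun _ _ => rfl, h2, fun Y _ _ a _ => h3 Y a⟩
    obtain ⟨j, -⟩ := h3 Unit fun _ _ => ⟨0, by simp⟩
    have : Nonempty U := ⟨j ()⟩
    exact ⟨h.not_finGen, h.not_countCof⟩
  · have h : Ury true U := ⟨h1, fun a b => min_eq_left (h0 a b), h2, fun Y _ _ a b =>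
      h3 Y a fun x y => (b x y).symm.trans_le (min_le_right _ _)⟩
    obtain ⟨j, -⟩ := h3 Unit (fun _ _ => ⟨0, by simp⟩) (by simp)
    have : Nonempty U := ⟨j ()⟩
    exact ⟨h.not_finGen, h.not_countCof⟩

end Pool.Agent.Results.MP_18f3df_al.Cof
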