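import Mathlib

namespace Pool.Agent.Results.MP_1da4e9_nt.LowerDual
open Set

/-- `k • X + h`. -/
def aff (k h : ℤ) (X : Set ℤ) : Set ℤ := (fun x => k * x + h) '' X

/-- Upper quasi-density on `H` (only the values on subsets of `H` are constrained). -/
structure IsUQD (H : Set ℤ) (μ : Set ℤ → ℝ) : Prop where
  whole : μ H = 1
  subadd : ∀ X ⊆ H, ∀ Y ⊆ H, μ (X ∪ Y) ≤ μ X + μ Y
  affine : ∀ X ⊆ H, ∀ k h : ℕ, 0 < k → 0 < h → μ (aff k h X) = μ X / k
  le_one : ∀ X ⊆ H, μ X ≤ 1

/-- Upper density on `H`: a monotone upper quasi-density. -/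
def IsUD (H : Set ℤ) (μ : Set ℤ → ℝ) : Prop :=
  IsUQD H μ ∧ ∀ Y ⊆ H, ∀ X ⊆ Y, μ X ≤ μ Y

/-- The lower dual. -/
def low (H : Set ℤ) (μ : Set ℤ → ℝ) (X : Set ℤ) : ℝ := 1 - μ (H \ X)

structure Good (I : Set (Set ℤ)) : Prop where
  emp : ∅ ∈ I
  un : ∀ Z ∈ I, ∀ W ∈ I, Z ∪ W ∈ I
  im : ∀ Z ∈ I, ∀ k h : ℕ, 0 < k → aff k h Z ∈ I
  pre : ∀ Z ∈ I, ∀ k h : ℕ, 0 < k → (fun x : ℤ => (k : ℤ) * x + h) ⁻¹' Z ∈ I

def Cov (X Z : Set ℤ) (m : ℕ) (S : Finset ℤ) : Prop :=
  ∀ x ∈ X, x ∈ Z ∨ ∃ s ∈ S, (m : ℤ) ∣ x - s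

def V (I : Set (Set ℤ)) (X : Set ℤ) : Set ℝ :=
  {t | ∃ m : ℕ, 0 < m ∧ ∃ S : Finset ℤ, ∃ Z ∈ I, Cov X Z m S ∧ t = S.card / m}

noncomputable def b (I : Set (Set ℤ)) (X : Set ℤ) : ℝ := sInf (V I X)

lemma refine_cov {X Z : Set ℤ} {m : ℕ} {S : Finset ℤ} (h : Cov X Z m S) (n : ℕ) (hn : 0 < n) :
    ∃ S' : Finset ℤ, Cov X Z (m * n) S' ∧ S'.card ≤ S.card * n := by
  refine ⟨(S ×ˢ Finset.range n).image fun p => p.1 + m * (p.2 : ℤ), ?_, ?_⟩
  · intro x hx
    rcases h x hx with hz | ⟨s, hs, c, hc⟩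
    · exact Or.inl hz
    · have h0 : 0 ≤ c % n := Int.emod_nonneg _ (by omega)
      have h1 : c % n < n := Int.emod_lt_of_pos _ (by omega)
      refine Or.inr ⟨_, Finset.mem_image.2 ⟨(s, (c % n).toNat), ?_, rfl⟩, c / n, ?_⟩
      · simp only [Finset.mem_product, Finset.mem_range]; exact ⟨hs, by omega⟩
      · simp only [Int.toNat_of_nonneg h0]
        have := Int.emod_add_mul_ediv c n
        push_cast
        linear_combination hc - (m : ℤ) * this
  · exact Finset.card_image_le.trans (by simp)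

variable {I : Set (Set ℤ)}

lemma bdd (X : Set ℤ) : BddBelow (V I X) :=
  ⟨0, by rintro t ⟨m, -, S, Z, -, -, rfl⟩; positivity⟩

lemma one_mem (hI : Good I) (X : Set ℤ) : (1 : ℝ) ∈ V I X :=
  ⟨1, one_pos, {0}, ∅, hI.emp, fun x _ => Or.inr ⟨0, by simp, by simp⟩, by simp⟩

lemma b_le {X Z : Set ℤ} {m : ℕ} {S : Finset ℤ} (hm : 0 < m) (hZ : Z ∈ I) (h : Cov X Z m S) :
    b I X ≤ S.card / m := csInf_le (bdd X) ⟨m, hm, S, Z, hZ, h, rfl⟩

lemma le_b (hI : Good I) {X : Set ℤ} {c : ℝ}
    (h : ∀ m : ℕ, 0 < m → ∀ S : Finset ℤ, ∀ Z ∈ I, Cov X Z m S → c ≤ S.card / m) : c ≤ b I X :=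
  le_csInf ⟨1, one_mem hI X⟩ (by rintro t ⟨m, hm, S, Z, hZ, hc, rfl⟩; exact h m hm S Z hZ hc)

lemma b_le_one (hI : Good I) (X : Set ℤ) : b I X ≤ 1 := csInf_le (bdd X) (one_mem hI X)

lemma b_nonneg (hI : Good I) (X : Set ℤ) : 0 ≤ b I X :=
  le_b hI fun _ _ _ _ _ _ => by positivity

lemma b_mono (hI : Good I) {X Y : Set ℤ} (h : X ⊆ Y) : b I X ≤ b I Y :=
  le_b hI fun _ hm _ _ hZ hc => b_le hm hZ fun x hx => hc x (h hx)

lemma b_zero (hI : Good I) {X Z : Set ℤ} (hZ : Z ∈ I) (h : X ⊆ Z) : b I X = 0 :=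
  le_antisymm (by simpa using b_le (S := ∅) one_pos hZ fun x hx => Or.inl (h hx)) (b_nonneg hI X)

lemma b_union (hI : Good I) (X Y : Set ℤ) : b I (X ∪ Y) ≤ b I X + b I Y := by
  rw [← sub_le_iff_le_add]
  refine le_b hI fun m hm S Z hZ hc => ?_
  rw [sub_le_comm]
  refine le_b hI fun n hn T W hW hd => ?_
  obtain ⟨S', h1, h2⟩ := refine_cov hc n hn
  obtain ⟨T', h3, h4⟩ := refine_cov hd m hm
  rw [mul_comm n m] at h3
  have := b_le (X := X ∪ Y) (S := S' ∪ T') (Nat.mul_pos hm hn) (hI.un Z hZ W hW) (by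
    rintro x (hx | hx)
    · rcases h1 x hx with h | ⟨s, hs, h⟩
      · exact Or.inl (Or.inl h)
      · exact Or.inr ⟨s, Finset.mem_union_left _ hs, h⟩
    · rcases h3 x hx with h | ⟨s, hs, h⟩
      · exact Or.inl (Or.inr h)
      · exact Or.inr ⟨s, Finset.mem_union_right _ hs, h⟩)
  have hc : ((S' ∪ T').card : ℝ) ≤ S.card * n + T.card * m := by
    exact_mod_cast (Finset.card_union_le _ _).trans (Nat.add_le_add h2 h4)
  have hm' : (0 : ℝ) < m := by exact_mod_cast hm
  have hn' : (0 : ℝ) < n := by exact_mod_cast hn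
  have e : ((S.card : ℝ) * n + T.card * m) / (m * n) = S.card / m + T.card / n := by
    field_simp
  have : ((S' ∪ T').card : ℝ) / ((m * n : ℕ) : ℝ) ≤ S.card / m + T.card / n := by
    rw [← e]; push_cast; gcongr
  linarith

lemma b_aff (hI : Good I) (X : Set ℤ) (k h : ℕ) (hk : 0 < k) : b I (aff k h X) = b I X / k := by
  have hk' : (0 : ℝ) < k := by exact_mod_cast hk
  apply le_antisymm
  · rw [le_div_iff₀ hk']
    refine le_b hI fun m hm S Z hZ hc => ?_
    have := b_le (X := aff k h X) (S := S.image fun s => (k : ℤ) * s + h) (Nat.mul_pos hk hm)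
      (hI.im Z hZ k h hk) (by
        rintro _ ⟨x, hx, rfl⟩
        rcases hc x hx with hz | ⟨s, hs, c, hc⟩
        · exact Or.inl ⟨x, hz, rfl⟩
        · exact Or.inr ⟨_, Finset.mem_image_of_mem _ hs, c, by
            push_cast; linear_combination (k : ℤ) * hc⟩)
    have hc : ((S.image fun s => (k : ℤ) * s + h).card : ℝ) ≤ S.card := by
      exact_mod_cast Finset.card_image_le
    have hm' : (0 : ℝ) < m := by exact_mod_cast hm
    rw [← le_div_iff₀ hk', div_div, mul_comm]
    refine this.trans ?_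
    push_cast; gcongr
  · refine le_b hI fun m hm S Z hZ hc => ?_
    obtain ⟨S', h1, h2⟩ := refine_cov hc k hk
    have := b_le (X := X) (S := S'.image fun s => (s - h) / k) hm (hI.pre Z hZ k h hk) (by
      intro x hx
      rcases h1 _ ⟨x, hx, rfl⟩ with hz | ⟨s, hs, c, hc⟩
      · exact Or.inl hz
      · refine Or.inr ⟨_, Finset.mem_image_of_mem _ hs, c, ?_⟩
        have : s - h = k * (x - m * c) := by push_cast at hc; linear_combination -hc
        rw [this, Int.mul_ediv_cancel_left _ (by omega)]; ring)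
    have hc : ((S'.image fun s : ℤ => (s - h) / k).card : ℝ) ≤ S.card * k := by
      exact_mod_cast Finset.card_image_le.trans h2
    have hm' : (0 : ℝ) < m := by exact_mod_cast hm
    rw [div_le_iff₀ hk', div_mul_eq_mul_div]
    refine this.trans ?_
    gcongr

lemma b_one (hI : Good I) {X : Set ℤ}
    (h : ∀ Z ∈ I, ∀ m : ℕ, 0 < m → ∀ r : ℕ, ∃ x ∈ X, x ∉ Z ∧ (m : ℤ) ∣ x - r) : b I X = 1 := by
  refine le_antisymm (b_le_one hI X) (le_b hI fun m hm S Z hZ hc => ?_)
  have hm' : (0 : ℝ) < m := by exact_mod_cast hm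
  rw [le_div_iff₀ hm', one_mul]
  have : (Finset.range m).card ≤ S.card := by
    refine Finset.card_le_card_of_surjOn (fun s => (s % m).toNat) ?_
    intro r hr
    have hr' : r < m := by simpa using hr
    obtain ⟨x, hx, hz, hd⟩ := h Z hZ m hm r
    rcases hc x hx with h' | ⟨s, hs, hd'⟩
    · exact absurd h' hz
    · refine ⟨s, hs, ?_⟩
      have e : (m : ℤ) ∣ (r : ℤ) - s := by
        have := dvd_sub hd' hd
        simpa using this
      have e2 : s % m = r % m := (Int.emod_emod_of_dvd _ dvd_rfl).symm.trans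
        (by rw [Int.emod_emod_of_dvd _ dvd_rfl]; exact (Int.modEq_iff_dvd.2 e))
      simp only [e2]
      rw [Int.emod_eq_of_lt (by omega) (by omega)]; simp
  exact_mod_cast (by simpa using this : m ≤ S.card)

lemma good0 : Good {∅} :=
  ⟨rfl, by simp, by simp [aff], by simp⟩

noncomputable def w (x : ℤ) : ℝ := 1 / (|(x : ℝ)| + 1)

lemma w_pos (x : ℤ) : 0 < w x := by unfold w; positivity

def J : Set (Set ℤ) := {Z | Summable (Z.indicator w)}

lemma ind_nonneg (Z : Set ℤ) (x : ℤ) : 0 ≤ Z.indicator w x :=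
  indicator_nonneg (fun a _ => (w_pos a).le) x

lemma inj (k h : ℕ) (hk : 0 < k) : Function.Injective fun x : ℤ => (k : ℤ) * x + h := by
  intro x y e
  have : (k : ℤ) * x = k * y := by simpa using e
  exact mul_left_cancel₀ (by omega) this

lemma goodJ : Good J := by
  refine ⟨by simp [J, summable_zero], fun Z hZ W hW => ?_, fun Z hZ k h hk => ?_,
    fun Z hZ k h hk => ?_⟩
  · refine Summable.of_nonneg_of_le (ind_nonneg _) (fun x => ?_) (Summable.add hZ hW)
    have := w_pos x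
    by_cases h1 : x ∈ Z <;> by_cases h2 : x ∈ W <;> simp [indicator, h1, h2, this.le]
  · have hk' : (1 : ℝ) ≤ k := by exact_mod_cast hk
    refine ((inj k h hk).summable_iff ?_).1 ?_
    · intro x hx
      refine indicator_of_notMem ?_ _
      rintro ⟨y, _, e⟩
      exact hx ⟨y, e⟩
    · refine Summable.of_nonneg_of_le (fun x => ind_nonneg _ _) (fun x => ?_)
        (Summable.mul_left ((h : ℝ) + 1) hZ)
      by_cases hx : x ∈ Z
      · have : (k : ℤ) * x + h ∈ aff k h Z := ⟨x, hx, rfl⟩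
        simp only [Function.comp, indicator_of_mem this, indicator_of_mem hx, w]
        rw [mul_one_div, div_le_div_iff₀ (by positivity) (by positivity)]
        push_cast
        have h1 : |(k : ℝ) * x| ≤ |(k : ℝ) * x + h| + h := by
          have := abs_sub ((k : ℝ) * x + h) h
          simpa using this
        rw [abs_mul, abs_of_nonneg (by positivity : (0 : ℝ) ≤ k)] at h1
        have h2 := abs_nonneg (x : ℝ)
        have h3 := abs_nonneg ((k : ℝ) * x + h)
        have h4 : (0 : ℝ) ≤ h := by positivity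
        nlinarith
      · have : (k : ℤ) * x + h ∉ aff k h Z := by
          rintro ⟨y, hy, e⟩
          exact hx (inj k h hk e ▸ hy)
        simp [Function.comp, indicator_of_notMem this, indicator_of_notMem hx]
  · have hs := Summable.mul_left ((k : ℝ) + h + 1) (Summable.comp_injective hZ (inj k h hk))
    refine Summable.of_nonneg_of_le (fun x => ind_nonneg _ _) (fun x => ?_) hs
    by_cases hx : (k : ℤ) * x + h ∈ Z
    · have : x ∈ (fun x : ℤ => (k : ℤ) * x + h) ⁻¹' Z := hx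
      simp only [Function.comp, indicator_of_mem this, indicator_of_mem hx, w]
      rw [mul_one_div, div_le_div_iff₀ (by positivity) (by positivity)]
      push_cast
      have h1 : |(k : ℝ) * x + h| ≤ |(k : ℝ) * x| + h := by
        have := abs_add_le ((k : ℝ) * x) h
        simpa using this
      rw [abs_mul, abs_of_nonneg (by positivity : (0 : ℝ) ≤ k)] at h1
      have h2 := abs_nonneg (x : ℝ)
      have h4 : (0 : ℝ) ≤ h := by positivity
      have h5 : (0 : ℝ) ≤ k := by positivity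
      nlinarith
    · have : x ∉ (fun x : ℤ => (k : ℤ) * x + h) ⁻¹' Z := hx
      simp [Function.comp, indicator_of_notMem this, indicator_of_notMem hx]

lemma bJ_one {H : Set ℤ} (hH : Ici 1 ⊆ H) : b J H = 1 := by
  refine b_one goodJ fun Z hZ m hm r => ?_
  by_contra hc
  push Not at hc
  have h1 := goodJ.pre Z hZ m (r + m) hm
  have h2 := Summable.comp_injective h1 (Nat.cast_injective (R := ℤ))
  refine Real.not_summable_one_div_natCast ((summable_nat_add_iff 1).1 (h2.congr fun n => ?_))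
  have : (n : ℤ) ∈ (fun x : ℤ => (m : ℤ) * x + ((r + m : ℕ) : ℤ)) ⁻¹' Z := by
    by_contra hn
    refine hc _ (hH ?_) hn ⟨n + 1, by push_cast; ring⟩
    have : (0 : ℤ) ≤ m * n := by positivity
    simp only [mem_Ici]; push_cast; omega
  simp only [Function.comp, indicator_of_mem this, w]
  simp

def y (n : ℕ) : ℤ := ((n + 2).factorial + n : ℕ)

lemma y_step (n : ℕ) : 2 * y n < y (n + 1) := by
  unfold y
  have h1 : n + 2 ≤ (n + 2).factorial := Nat.self_le_factorial _
  have h2 : (n + 1 + 2).factorial = (n + 3) * (n + 2).factorial := Nat.factorial_succ _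
  have : 2 * ((n + 2).factorial + n) < (n + 1 + 2).factorial + (n + 1) := by rw [h2]; nlinarith
  exact_mod_cast this

lemma y_ge (n : ℕ) : 2 ^ n ≤ y n := by
  induction n with
  | zero => simp [y]
  | succ n ih => have := y_step n; rw [pow_succ]; omega

lemma y_pos (n : ℕ) : 1 ≤ y n := (one_le_pow₀ (by norm_num)).trans (y_ge n)

lemma y_mono : StrictMono y :=
  strictMono_nat_of_lt_succ fun n => by have := y_step n; have := y_pos n; omega

lemma Y_mem : range y ∈ J := by
  refine (y_mono.injective.summable_iff fun x hx => indicator_of_notMem hx _).1 ?_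
  refine Summable.of_nonneg_of_le (fun n => ind_nonneg _ _) (fun n => ?_)
    summable_geometric_two
  simp only [Function.comp, indicator_of_mem (mem_range_self n), w]
  rw [one_div_pow]
  have : (2 : ℝ) ^ n ≤ y n := by exact_mod_cast y_ge n
  have h2 := le_abs_self (y n : ℝ)
  gcongr; linarith

lemma b0_Y : b {∅} (range y) = 1 := by
  refine b_one good0 fun Z hZ m hm r => ⟨y (r + m), mem_range_self _, by simp_all, ?_⟩
  obtain ⟨c, hc⟩ : m ∣ (r + m + 2).factorial := Nat.dvd_factorial hm (by omega)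
  exact ⟨c + 1, by unfold y; rw [hc]; push_cast; ring⟩

lemma Y_free : ThreeAPFree (range y) := by
  rintro _ ⟨i, rfl⟩ _ ⟨j, rfl⟩ _ ⟨k, rfl⟩ h
  have key : ∀ a, j < a → 2 * y j < y a := fun a ha =>
    (y_step j).trans_le (y_mono.monotone ha)
  have := y_pos i
  have := y_pos k
  rcases lt_trichotomy i j with h1 | rfl | h1
  · have h2 := y_mono h1
    have h3 : j < k := y_mono.lt_iff_lt.1 (by omega)
    have := key k h3; omega
  · rfl
  · have := key i h1; omega

lemma free_aff (X : Set ℤ) (k h : ℕ) (hk : 0 < k) : ThreeAPFree (aff k h X) ↔ ThreeAPFree X := by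
  constructor
  · intro H a ha b hb c hc e
    exact inj k h hk (H ⟨a, ha, rfl⟩ ⟨b, hb, rfl⟩ ⟨c, hc, rfl⟩ (by linear_combination (k : ℤ) * e))
  · rintro H _ ⟨a, ha, rfl⟩ _ ⟨b, hb, rfl⟩ _ ⟨c, hc, rfl⟩ e
    have : (k : ℤ) * (a + c) = k * (b + b) := by linear_combination e
    rw [H ha hb hc (mul_left_cancel₀ (by omega) this)]

lemma q1 {H : Set ℤ} (hH : Ici 1 ⊆ H) (h2 : ∀ x, 2 * x ∈ H → x ∈ H) :
    ∃ μ, IsUD H μ ∧ ∃ X ⊆ H, ∃ k : ℕ, 0 < k ∧ low H μ (aff k 0 X) ≠ low H μ X / k := by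
  have hY : range y ⊆ H := by rintro _ ⟨n, rfl⟩; exact hH (y_pos n)
  refine ⟨fun X => max (b J X) (b {∅} X / 2), ⟨⟨?_, fun X _ Y _ => ?_, fun X _ k h hk _ => ?_,
    fun X _ => ?_⟩, fun Y _ X hX => ?_⟩, H \ range y, sdiff_subset, 2, two_pos, ?_⟩
  · have := b_le_one good0 H
    rw [bJ_one hH]; exact max_eq_left (by linarith)
  · have h1 := b_union goodJ X Y
    have h2 := b_union good0 X Y
    have := le_max_left (b J X) (b {∅} X / 2)
    have := le_max_right (b J X) (b {∅} X / 2)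
    have := le_max_left (b J Y) (b {∅} Y / 2)
    have := le_max_right (b J Y) (b {∅} Y / 2)
    exact max_le (by linarith) (by linarith)
  · rw [b_aff goodJ X k h hk, b_aff good0 X k h hk, div_right_comm,
      max_div_div_right (by positivity)]
  · have := b_le_one good0 X
    exact max_le (b_le_one goodJ X) (by linarith)
  · have := b_mono good0 hX
    exact max_le_max (b_mono goodJ hX) (by linarith)
  · simp only [low, sdiff_sdiff_cancel_left hY, b0_Y, b_zero goodJ Y_mem subset_rfl]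
    have h3 := b_le (X := H \ aff (2 : ℕ) 0 (H \ range y)) (S := {1}) two_pos
      (goodJ.im _ Y_mem 2 0 two_pos) (by
        rintro x ⟨hx, hn⟩
        rcases Int.even_or_odd' x with ⟨z, rfl | rfl⟩
        · left
          by_contra hz
          exact hn ⟨z, ⟨h2 z hx, fun hy => hz ⟨z, hy, by simp⟩⟩, by simp⟩
        · exact Or.inr ⟨1, by simp, z, by simp⟩)
    have h4 := b_le_one good0 (H \ aff (2 : ℕ) 0 (H \ range y))
    have h5 : max (b J (H \ aff (2 : ℕ) 0 (H \ range y)))
        (b {∅} (H \ aff (2 : ℕ) 0 (H \ range y)) / 2) ≤ 1 / 2 :=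
      max_le (by simpa using h3) (div_le_div_of_nonneg_right h4 zero_le_two)
    rw [max_eq_right (by norm_num : (0 : ℝ) ≤ 1 / 2)]
    intro e
    push_cast at e h5
    linarith

open Classical in
lemma q2 (a : ℤ) (ha : a ≤ 1) :
    ∃ μ, IsUQD (Ici a) μ ∧ ∃ X ⊆ Ici a, ∃ h : ℕ, low (Ici a) μ (aff 1 h X) ≠ low (Ici a) μ X := by
  have hH : Ici 1 ⊆ Ici a := Ici_subset_Ici.2 ha
  have hY : range y ⊆ Ici a := by rintro _ ⟨n, rfl⟩; exact hH (y_pos n)
  have hle : ∀ X, (if ThreeAPFree X then b {∅} X else 0) ≤ 1 := fun X => by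
    split_ifs
    · exact b_le_one good0 X
    · exact zero_le_one
  refine ⟨fun X => max (b J X) (if ThreeAPFree X then b {∅} X else 0), ⟨?_, fun X _ Y _ => ?_,
    fun X _ k h hk _ => ?_, fun X _ => max_le (b_le_one goodJ X) (hle X)⟩,
    Ici a \ range y, sdiff_subset, 3, ?_⟩
  · rw [bJ_one hH]; exact max_eq_left (hle _)
  · have h1 := b_union goodJ X Y
    have h2 := b_union good0 X Y
    have h3 := le_max_left (b J X) (if ThreeAPFree X then b {∅} X else 0)
    have h4 := le_max_right (b J X) (if ThreeAPFree X then b {∅} X else 0)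
    have h5 := le_max_left (b J Y) (if ThreeAPFree Y then b {∅} Y else 0)
    have h6 := le_max_right (b J Y) (if ThreeAPFree Y then b {∅} Y else 0)
    refine max_le (by linarith) ?_
    by_cases hf : ThreeAPFree (X ∪ Y)
    · have hX : ThreeAPFree X := hf.mono subset_union_left
      have hY : ThreeAPFree Y := hf.mono subset_union_right
      simp only [if_pos hf, if_pos hX, if_pos hY] at *
      linarith
    · have := b_nonneg goodJ X
      have := b_nonneg goodJ Y
      rw [if_neg hf]; linarith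
  · rw [b_aff goodJ X k h hk, b_aff good0 X k h hk, free_aff X k h hk,
      ← max_div_div_right (by positivity)]
    split_ifs <;> simp
  · simp only [low, sdiff_sdiff_cancel_left hY, b0_Y, b_zero goodJ Y_mem subset_rfl, if_pos Y_free]
    have hfin : ({a, a + 1, a + 2} : Set ℤ) ∈ J :=
      summable_of_hasFiniteSupport ((Set.toFinite _).subset support_indicator_subset)
    have h0 : b J (Ici a \ aff 1 (3 : ℕ) (Ici a \ range y)) = 0 := by
      refine b_zero goodJ (goodJ.un _ hfin _ (goodJ.im _ Y_mem 1 3 one_pos)) ?_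
      rintro x ⟨hx, hn⟩
      by_cases h3 : a ≤ x - 3
      · right
        by_contra hz
        exact hn ⟨x - 3, ⟨h3, fun hy => hz ⟨x - 3, hy, by simp⟩⟩, by simp⟩
      · left
        simp only [mem_Ici] at hx
        simp only [mem_insert_iff, mem_singleton_iff]; omega
    have hm : ∀ x, a ≤ x → x ≤ a + 2 → x ∈ Ici a \ aff 1 (3 : ℕ) (Ici a \ range y) := by
      rintro x h1 h2
      refine ⟨h1, ?_⟩
      rintro ⟨z, ⟨hz, -⟩, e⟩
      simp only [mem_Ici] at hz
      simp at e; omega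
    have hn : ¬ ThreeAPFree (Ici a \ aff 1 (3 : ℕ) (Ici a \ range y)) := fun hf => by
      have := hf (hm a le_rfl (by omega)) (hm (a + 1) (by omega) (by omega))
        (hm (a + 2) (by omega) le_rfl) (by ring)
      omega
    rw [h0, if_neg hn]
    norm_num

theorem parts :
    (∀ H ∈ ({univ, Ici 0, Ici 1} : Set (Set ℤ)), ∃ μ, IsUD H μ ∧
      ∃ X ⊆ H, ∃ k : ℕ, 0 < k ∧ low H μ (aff k 0 X) ≠ low H μ X / k) ∧
    (∀ H ∈ ({Ici 0, Ici 1} : Set (Set ℤ)), ∃ μ, IsUQD H μ ∧
      ∃ X ⊆ H, ∃ h : ℕ, low H μ (aff 1 h X) ≠ low H μ X) ∧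
    (∀ μ, IsUQD univ μ → ∀ X, ∀ h : ℕ, low univ μ (aff 1 h X) = low univ μ X) := by
  refine ⟨?_, ?_, ?_⟩
  · rintro H (rfl | rfl | rfl)
    · exact q1 (subset_univ _) (by simp)
    · exact q1 (Ici_subset_Ici.2 zero_le_one) (by simp only [mem_Ici]; omega)
    · exact q1 subset_rfl (by simp only [mem_Ici]; omega)
  · rintro H (rfl | rfl)
    · exact q2 0 zero_le_one
    · exact q2 1 le_rfl
  · intro μ hμ X h
    rcases Nat.eq_zero_or_pos h with rfl | hh
    · simp [aff]
    · have e : univ \ aff 1 h X = aff (1 : ℕ) h (univ \ X) := by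
        ext x
        simp only [aff, mem_sdiff, mem_univ, true_and, mem_image, Nat.cast_one, one_mul]
        constructor
        · intro hx
          exact ⟨x - h, fun h' => hx ⟨x - h, h', by ring⟩, by ring⟩
        · rintro ⟨z, hz, rfl⟩ ⟨u, hu, e⟩
          exact hz ((add_right_cancel e : u = z) ▸ hu)
      rw [low, low, e, hμ.affine _ (subset_univ _) 1 h one_pos hh]
      simp

end Pool.Agent.Results.MP_1da4e9_nt.LowerDual
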