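import Mathlib

open Filter Topology

namespace Pool.Agent.Results.MP_811ee8_lc.Quasi

/-- Boolean formulas over `V = Fin n` -/
inductive Fml (n : ℕ)
  | var (p : Fin n) | top | bot | neg (a : Fml n) | and (a b : Fml n) | or (a b : Fml n)

/-- mental programs -/
inductive Prog (n : ℕ)
  | asg (p : Fin n) (b : Bool) | test (β : Fml n)
  | cup (a b : Prog n) | seq (a b : Prog n) | cap (a b : Prog n)

variable {n N : ℕ}

def Fml.sat (s : Finset (Fin n)) : Fml n → Prop
  | var p => p ∈ s
  | top => True
  | bot => False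
  | neg a => ¬ a.sat s
  | and a b => a.sat s ∧ b.sat s
  | or a b => a.sat s ∨ b.sat s

/-- number of symbols, a binary connective counting with its two brackets -/
def Fml.len : Fml n → ℕ
  | neg a => a.len + 1
  | and a b => a.len + b.len + 3
  | or a b => a.len + b.len + 3
  | _ => 1

def Prog.rel : Prog n → Finset (Fin n) → Finset (Fin n) → Prop
  | asg p b, s, t => t = if b then insert p s else s.erase p
  | test β, s, t => t = s ∧ β.sat s
  | cup a b, s, t => a.rel s t ∨ b.rel s t
  | seq a b, s, t => ∃ u, a.rel s u ∧ b.rel u t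
  | cap a b, s, t => a.rel s t ∧ b.rel s t

def Prog.len : Prog n → ℕ
  | asg _ _ => 3
  | test β => β.len + 1
  | cup a b => a.len + b.len + 3
  | seq a b => a.len + b.len + 3
  | cap a b => a.len + b.len + 3

/-- ordered decision diagrams with `N` nodes over `V ∪ V'`: a node is a leaf or carries a variable,
a low child and a high child, and variables increase along edges -/
structure BDD (n N : ℕ) where
  node : Fin N → Bool ⊕ (Fin n ⊕ Fin n) × Fin N × Fin N
  root : Fin N
  ord : ∃ rk : Fin n ⊕ Fin n → ℕ, rk.Injective ∧ ∀ u x l h w y l' h', node u = .inr (x, l, h) →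
    (w = l ∨ w = h) → node w = .inr (y, l', h') → rk x < rk y

/-- the node after `u` under the valuation `s ∪ t'` -/
def BDD.next (Ω : BDD n N) (s t : Finset (Fin n)) (u : Fin N) : Fin N :=
  match Ω.node u with
  | .inl _ => u
  | .inr (x, l, h) => if x.elim (fun p => decide (p ∈ s)) fun p => decide (p ∈ t) then h else l

/-- the path from the root reaches a leaf labelled true -/
def BDD.R (Ω : BDD n N) (s t : Finset (Fin n)) : Prop :=
  ∃ m, Ω.node ((Ω.next s t)^[m] Ω.root) = .inl true

def Correct (τ : ∀ n N, BDD n N → Prog n) : Prop :=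
  ∀ n N (Ω : BDD n N) s t, (τ n N Ω).rel s t ↔ Ω.R s t

open Prog

def hav : List (Fin n) → Prog n
  | [] => test .top
  | p :: l => seq (cup (asg p true) (asg p false)) (hav l)

theorem hav_rel (l : List (Fin n)) : ∀ s t, (hav l).rel s t ↔ ∀ p ∉ l, (p ∈ s ↔ p ∈ t) := by
  induction l with
  | nil => simp [hav, rel, Fml.sat, Finset.ext_iff, iff_comm]
  | cons q l ih =>
    intro s t
    simp only [hav, rel, ih, if_true, Bool.false_eq_true, if_false, List.mem_cons, not_or]
    refine ⟨fun ⟨u, a, b⟩ p g => by rcases a with rfl | rfl <;> simpa [g.1] using b p g.2, fun h => ?_⟩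
    by_cases g : q ∈ t
    · exact ⟨_, .inl rfl, fun p c => by by_cases e : p = q <;> simp_all⟩
    · exact ⟨_, .inr rfl, fun p c => by by_cases e : p = q <;> simp_all⟩

theorem hav_len (l : List (Fin n)) : (hav l).len = 12 * l.length + 2 := by
  induction l with
  | nil => rfl
  | cons q l ih => simp [hav, len, ih]; ring

def H (n : ℕ) : Prog n := hav (List.finRange n)
theorem H_rel (s t : Finset (Fin n)) : (H n).rel s t := by simp [H, hav_rel]
theorem H_len : (H n).len = 12 * n + 2 := by simp [H, hav_len]

def lit (x : Fin n ⊕ Fin n) (b : Bool) : Prog n :=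
  x.elim (fun p => seq (test (if b then .var p else .neg (.var p))) (H n))
    fun p => seq (H n) (test (if b then .var p else .neg (.var p)))

theorem lit_rel (x : Fin n ⊕ Fin n) (b : Bool) (s t : Finset (Fin n)) : (lit x b).rel s t ↔
    x.elim (fun p => decide (p ∈ s)) (fun p => decide (p ∈ t)) = b := by
  cases x <;> cases b <;> simp [lit, rel, H_rel, Fml.sat, eq_comm (a := t)]

theorem lit_len (x : Fin n ⊕ Fin n) (b : Bool) : (lit x b).len ≤ 12 * n + 8 := by
  cases x <;> cases b <;> simp [lit, len, H_len, Fml.len] <;> omega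

def U {α : Type} (f : α → Prog n) : List α → Prog n
  | [] => test .bot
  | a :: l => cup (f a) (U f l)

theorem U_rel {α : Type} (f : α → Prog n) (l : List α) (s t : Finset (Fin n)) :
    (U f l).rel s t ↔ ∃ a ∈ l, (f a).rel s t := by
  induction l <;> simp_all [U, rel, Fml.sat]

theorem U_len {α : Type} (f : α → Prog n) (l : List α) {L : ℕ} (h : ∀ a, (f a).len ≤ L) :
    (U f l).len ≤ l.length * (L + 3) + 2 := by
  induction l with
  | nil => simp [U, len, Fml.len]
  | cons a l ih => have := h a; simp only [U, len, List.length_cons]; nlinarith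

def P (Ω : BDD n N) : ℕ → Fin N → Fin N → Prog n
  | 0, u, v => match Ω.node u with
    | .inl _ => if u = v then H n else test .bot
    | .inr (x, l, h) => cup (if h = v then lit x true else test .bot)
        (if l = v then lit x false else test .bot)
  | k + 1, u, v => U (fun w => cap (P Ω k u w) (P Ω k w v)) (List.finRange N)

theorem P_rel (Ω : BDD n N) (s t : Finset (Fin n)) (k : ℕ) :
    ∀ u v, (P Ω k u v).rel s t ↔ (Ω.next s t)^[2 ^ k] u = v := by
  induction k with
  | zero =>
    intro u v
    simp only [P, pow_zero, Function.iterate_one, BDD.next]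
    rcases Ω.node u with b | ⟨x, l, h⟩
    · by_cases e : u = v <;> simp [e, H_rel, rel, Fml.sat]
    · simp only [rel]
      split_ifs <;> simp_all [lit_rel, rel, Fml.sat]
  | succ k ih => simp [P, U_rel, rel, ih, pow_succ, mul_two, Function.iterate_add_apply]

theorem P_len (Ω : BDD n N) (k : ℕ) : ∀ u v, (P Ω k u v).len + 8 ≤ 27 * (n + 1) * (2 * N) ^ k := by
  induction k with
  | zero =>
    intro u v
    simp only [P]
    rcases Ω.node u with b | ⟨x, l, h⟩
    · simp only; split_ifs <;> simp [H_len, len, Fml.len] <;> omega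
    · have := lit_len x true; have := lit_len x false
      simp only [len]; split_ifs <;> simp [len, Fml.len] <;> omega
  | succ k ih =>
    intro u v
    obtain ⟨L, hL⟩ : ∃ L, 27 * (n + 1) * (2 * N) ^ k = L + 8 := ⟨_, (Nat.sub_add_cancel
      ((Nat.le_add_left _ _).trans (ih u v))).symm⟩
    have := U_len (fun w => cap (P Ω k u w) (P Ω k w v)) (List.finRange N) (L := 2 * L + 3)
      fun w => by have := ih u w; have := ih w v; simp only [len]; omega
    rw [List.length_finRange] at this
    rw [P, pow_succ, ← mul_assoc, hL]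
    nlinarith [u.pos]

theorem short (Ω : BDD n N) (s t : Finset (Fin n)) {M : ℕ} (hM : N ≤ M) :
    Ω.R s t ↔ Ω.node ((Ω.next s t)^[M] Ω.root) = .inl true := by
  classical
  refine ⟨fun h => ?_, fun h => ⟨M, h⟩⟩
  have a := Nat.find_spec h
  have b : Nat.find h ≤ M := by
    by_contra! g
    have key : ∀ i j : Fin (N + 1), i < j →
        (Ω.next s t)^[i] Ω.root ≠ (Ω.next s t)^[j] Ω.root := fun i j c e =>
      Nat.find_min h (m := Nat.find h - j + i) (by omega) (by
        rwa [Function.iterate_add_apply, e, ← Function.iterate_add_apply,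
          Nat.sub_add_cancel (by omega)])
    obtain ⟨i, j, c, e⟩ := Fintype.exists_ne_map_eq_of_card_lt
      (fun i : Fin (N + 1) => (Ω.next s t)^[i] Ω.root) (by simp)
    exact c.lt_or_gt.elim (key i j · e) (key j i · e.symm)
  rwa [← Nat.sub_add_cancel b, Function.iterate_add_apply,
    Function.iterate_fixed (by simp only [BDD.next, a])]

def wr : Prog n → Finset (Fin n)
  | asg p _ => {p}
  | test _ => ∅
  | cup a b => wr a ∪ wr b
  | .seq a b => wr a ∪ wr b
  | cap a b => wr a ∪ wr b

theorem wr_le (π : Prog n) : (wr π).card ≤ π.len := by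
  induction π with
  | asg => simp [wr, len]
  | test => simp [wr]
  | cup a b x y | seq a b x y | cap a b x y =>
    have := Finset.card_union_le (wr a) (wr b); simp only [wr, len]; omega

theorem wr_rel (π : Prog n) : ∀ s t, π.rel s t → t ⊆ s ∪ wr π := by
  induction π with
  | asg p b => rintro s t rfl; cases b <;> simp [wr, Finset.subset_iff]; tauto
  | test => rintro s t ⟨rfl, -⟩; simp
  | cup a b x y =>
    rintro s t (h | h) p g
    · have := x s t h g; grind [wr]
    · have := y s t h g; grind [wr]
  | seq a b x y => rintro s t ⟨u, h, h'⟩ p g; have := @x s u h p; have := y u t h' g; grind [wr]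
  | cap a b x y => rintro s t ⟨h, -⟩ p g; have := x s t h g; grind [wr]

theorem parts : (∃ τ, Correct τ ∧
      (∀ n N Ω, (τ n N Ω).len ≤ 27 * (n + 1) * (2 * N) ^ (Nat.log 2 N + 2)) ∧
      ∀ c δ : ℝ, 0 < c → 0 < δ → ∀ᶠ N : ℕ in atTop, ∀ n ≤ N, ∀ Ω,
        ((τ n N Ω).len : ℝ) < 2 ^ (c * (N : ℝ) ^ δ)) ∧
    ∀ n N, 0 < N → ∃ Ω : BDD n N, ∀ π : Prog n, (∀ s t, π.rel s t ↔ Ω.R s t) → n ≤ π.len := by
  constructor
  · let τ : ∀ n N, BDD n N → Prog n := fun n N Ω => U (fun v => if Ω.node v = .inl true then
      P Ω (Nat.log 2 N + 1) Ω.root v else test .bot) (List.finRange N)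
    have b : ∀ n N Ω, (τ n N Ω).len ≤ 27 * (n + 1) * (2 * N) ^ (Nat.log 2 N + 2) := fun n N Ω => by
      obtain ⟨L, hL⟩ : ∃ L, 27 * (n + 1) * (2 * N) ^ (Nat.log 2 N + 1) = L + 2 + 8 := by
        have : 0 < (2 * N) ^ (Nat.log 2 N + 1) := pow_pos (by have := Ω.root.pos; omega) _
        exact ⟨_, (Nat.sub_add_cancel (m := 10) (by nlinarith)).symm⟩
      refine (U_len _ _ (L := L + 2) fun v => ?_).trans ?_
      · have := P_len Ω (Nat.log 2 N + 1) Ω.root v
        split_ifs
        · omega
        · simp [len, Fml.len]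
      · rw [List.length_finRange, pow_succ _ (_ + 1), ← mul_assoc, hL]
        nlinarith [Ω.root.pos]
    refine ⟨τ, fun n N Ω s t => ?_, b, fun c δ hc hδ => ?_⟩
    · rw [short Ω s t (Nat.lt_pow_succ_log_self one_lt_two N).le, U_rel]
      refine ⟨fun ⟨v, _, h⟩ => ?_, fun h => ⟨_, List.mem_finRange _, by rw [if_pos h, P_rel]⟩⟩
      split_ifs at h with g
      · rwa [(P_rel ..).1 h]
      · exact h.2.elim
    · have := (isLittleO_log_rpow_rpow_atTop 2 hδ).comp_tendsto tendsto_natCast_atTop_atTop
      filter_upwards [this.bound (show 0 < c / 100 by positivity), eventually_ge_atTop 64,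
        (Real.tendsto_log_atTop.comp tendsto_natCast_atTop_atTop).eventually_ge_atTop 1]
        with N h1 h2 h3 n hn Ω
      have k1 := Nat.lt_pow_succ_log_self one_lt_two N
      have k2 : (Nat.log 2 N : ℝ) ≤ 2 * Real.log N := by
        have : (2 : ℝ) ^ Nat.log 2 N ≤ N := by exact_mod_cast Nat.pow_log_le_self 2 (by omega)
        have := Real.log_le_log (by positivity) this
        rw [Real.log_pow] at this
        nlinarith [Real.log_two_gt_d9, (Nat.log 2 N).cast_nonneg (α := ℝ)]
      have a := b n N Ω
      generalize Nat.log 2 N = k at *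
      have : (τ n N Ω).len < 2 ^ ((k + 2) * (k + 4)) := calc
        _ ≤ _ := a
        _ < (2 * N) ^ 2 * (2 * N) ^ (k + 2) :=
          Nat.mul_lt_mul_of_pos_right (by nlinarith) (by positivity)
        _ = (2 * N) ^ (k + 4) := by ring
        _ ≤ (2 ^ (k + 2)) ^ (k + 4) := Nat.pow_le_pow_left (by rw [pow_succ]; omega) _
        _ = _ := (pow_mul ..).symm
      refine lt_of_lt_of_le (b := (2 : ℝ) ^ ((((k + 2) * (k + 4) : ℕ) : ℝ)))
        (by rw [Real.rpow_natCast]; exact_mod_cast this)
        (Real.rpow_le_rpow_of_exponent_le one_le_two ?_)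
      simp only [Function.comp_apply, Real.rpow_two, Real.norm_eq_abs, abs_pow, sq_abs] at h1 h3
      rw [abs_of_nonneg (by positivity)] at h1
      push_cast
      nlinarith [k.cast_nonneg (α := ℝ)]
  · refine fun n N hN => ⟨⟨fun _ => .inl true, ⟨0, hN⟩, Encodable.encode, Encodable.encode_injective,
      by simp⟩, fun π h => ?_⟩
    simpa using (Finset.card_le_card (wr_rel π ∅ .univ ((h _ _).2 ⟨0, rfl⟩))).trans
      (by simpa using wr_le π)

end Pool.Agent.Results.MP_811ee8_lc.Quasi
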