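import Mathlib

namespace Pool.Agent.Results.MP_b73301_gt.BothFail
open Set Topology Filter

/-- The semi-Zariski topology on a semigroup `S`; `WithOne S` is `S` with an external identity. -/
def semiZariski (S : Type) [Semigroup S] : TopologicalSpace S :=
  TopologicalSpace.generateFrom
    ({U | ∃ a b c : WithOne S, U = {x : S | a * x * b ≠ c}} ∪
      {U | ∃ a b c d : WithOne S, U = {x : S | a * x * b ≠ c * x * d}})

/-- The subspace `A` is a countable union of discrete subspaces. -/
def SigmaDiscrete {X : Type} (_ : TopologicalSpace X) (A : Set X) : Prop :=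
  ∃ D : ℕ → Set X, ⋃ n, D n = A ∧ ∀ n, DiscreteTopology (D n)

/-- Finite double centralizers. -/
def FDC (S : Type) [Semigroup S] : Prop :=
  ∀ F : Set S, F.Finite → (Set.centralizer (Set.centralizer F)).Finite

/-- The elements whose double centralizer has at most `n` elements. -/
def Sle (S : Type) [Semigroup S] (n : ℕ) : Set S :=
  {f | (Set.centralizer (Set.centralizer {f})).encard ≤ n}

abbrev K := ZMod 2
abbrev V := ℕ →₀ K

@[ext] structure G where
  v : V
  w : Module.Dual K V
  c : K

noncomputable instance : Group G where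
  mul x y := ⟨x.v + y.v, x.w + y.w, x.c + y.c + x.w y.v⟩
  one := ⟨0, 0, 0⟩
  inv x := ⟨-x.v, -x.w, -x.c + x.w x.v⟩
  mul_assoc x y z := G.ext (add_assoc _ _ _) (add_assoc _ _ _)
    (show x.c + y.c + x.w y.v + z.c + (x.w + y.w) z.v =
      x.c + (y.c + z.c + y.w z.v) + x.w (y.v + z.v) by simp; ring)
  one_mul x := G.ext (zero_add _) (zero_add _)
    (show 0 + x.c + (0 : Module.Dual K V) x.v = x.c by simp)
  mul_one x := G.ext (add_zero _) (add_zero _) (show x.c + 0 + x.w 0 = x.c by simp)
  inv_mul_cancel x := G.ext (neg_add_cancel _) (neg_add_cancel _)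
    (show -x.c + x.w x.v + x.c + (-x.w) x.v = 0 by rw [LinearMap.neg_apply]; ring)

lemma comm_iff (x y : G) : x * y = y * x ↔ x.w y.v - y.w x.v = 0 := by
  constructor
  · intro h
    have : x.c + y.c + x.w y.v = y.c + x.c + y.w x.v := congrArg G.c h
    linear_combination this
  · intro h
    exact G.ext (add_comm _ _) (add_comm _ _)
      (show x.c + y.c + x.w y.v = y.c + x.c + y.w x.v by linear_combination h)

lemma fdc0 (F : Set G) :
    ∃ f : G → K × ((F → K) → K), InjOn f (Set.centralizer (Set.centralizer F)) := by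
  let φ : G → F → K := fun x f => f.1.w x.v - x.w f.1.v
  let s := Function.invFun φ
  have key : ∀ g ∈ Set.centralizer (Set.centralizer F), ∀ x : G,
      x.w g.v - g.w x.v = (s (φ x)).w g.v - g.w (s (φ x)).v := by
    intro g hg x
    have h1 : φ (s (φ x)) = φ x := Function.invFun_eq ⟨x, rfl⟩
    have := (comm_iff _ _).1 (hg ⟨x.v - (s (φ x)).v, x.w - (s (φ x)).w, 0⟩ fun f hf =>
      (comm_iff _ _).2 (by
        have := congrFun h1 ⟨f, hf⟩
        simp only [φ, map_sub, LinearMap.sub_apply] at this ⊢
        linear_combination -this))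
    simp only [map_sub, LinearMap.sub_apply] at this
    linear_combination this
  refine ⟨fun g : G => (g.c, fun y => (s y).w g.v - g.w (s y).v), fun g hg g' hg' e => ?_⟩
  have e1 : ∀ x : G, x.w g.v - g.w x.v = x.w g'.v - g'.w x.v := fun x => by
    rw [key g hg, key g' hg']; exact congrFun (congrArg Prod.snd e) _
  refine G.ext ?_ (LinearMap.ext fun v => ?_) (congrArg Prod.fst e)
  · rw [← sub_eq_zero, ← Module.forall_dual_apply_eq_zero_iff K]
    intro w
    have := e1 ⟨0, w, 0⟩
    simpa [sub_eq_zero] using this
  · simpa using e1 ⟨v, 0, 0⟩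

lemma fdc (F : Set G) (hF : F.Finite) : (Set.centralizer (Set.centralizer F)).Finite := by
  have := hF.to_subtype
  obtain ⟨f, hf⟩ := fdc0 F
  exact Set.Finite.of_finite_image (Set.toFinite _) hf

lemma le8 : Sle G 8 = univ := eq_univ_of_forall fun g => by
  obtain ⟨f, hf⟩ := fdc0 {g}
  show encard _ ≤ _
  rw [← hf.encard_image]
  refine (encard_le_encard (subset_univ _)).trans ?_
  rw [encard_univ, ENat.card_eq_coe_fintype_card]
  simp

/-- The Cantor set inside `G`. -/
noncomputable def io (t : ℕ → K) : G := ⟨0, Finsupp.linearCombination K t, 0⟩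

noncomputable def E (x : G) : (ℕ → K) × (V → K) × K := (x.v, x.w, x.c)

lemma E_inj : Function.Injective E := fun x y e =>
  G.ext (DFunLike.coe_injective (congrArg Prod.fst e))
    (DFunLike.coe_injective (congrArg (fun p => p.2.1) e)) (congrArg (fun p => p.2.2) e)

lemma cont_lc (u : V) : Continuous fun t : ℕ → K => Finsupp.linearCombination K t u := by
  simp only [Finsupp.linearCombination_apply, Finsupp.sum]
  exact continuous_finsetSum _ fun i _ => continuous_const.mul (continuous_apply i)

lemma cont (g h : G) : Continuous fun t => E (g * io t * h) := by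
  refine Continuous.prodMk (continuous_const (y := ⇑(g.v + 0 + h.v))) (Continuous.prodMk
    (continuous_pi fun u => ?_) ?_)
  · exact (continuous_const.add (cont_lc u)).add continuous_const
  · exact (continuous_const (y := g.c + 0 + g.w 0 + h.c)).add
      (continuous_const.add (cont_lc h.v))

lemma red (a b : WithOne G) : ∃ g h : G, ∀ x : G, a * x * b = (g * x * h : G) := by
  induction a using WithOne.recOneCoe <;> induction b using WithOne.recOneCoe
  · exact ⟨1, 1, fun x => by simp⟩
  · exact ⟨1, _, fun x => by rw [one_mul, one_mul, WithOne.coe_mul]⟩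
  · exact ⟨_, 1, fun x => by rw [mul_one, mul_one, WithOne.coe_mul]⟩
  · exact ⟨_, _, fun x => by rw [WithOne.coe_mul, WithOne.coe_mul]⟩

lemma cont_io : @Continuous _ _ _ (semiZariski G) io := by
  refine continuous_generateFrom_iff.2 ?_
  rintro U (⟨a, b, c, rfl⟩ | ⟨a, b, c, d, rfl⟩)
  · obtain ⟨g, h, e⟩ := red a b
    induction c using WithOne.recOneCoe with
    | one => simp only [e]; simp [-WithOne.coe_mul]
    | coe c =>
      simp only [e, preimage_ofPred_eq, ne_eq, WithOne.coe_inj, ← E_inj.eq_iff]
      exact isOpen_ne_fun (cont g h) continuous_const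
  · obtain ⟨g, h, e⟩ := red a b
    obtain ⟨g', h', e'⟩ := red c d
    simp only [e, e', preimage_ofPred_eq, ne_eq, WithOne.coe_inj, ← E_inj.eq_iff]
    exact isOpen_ne_fun (cont g h) (cont g' h')

lemma q2 : ¬ SigmaDiscrete (semiZariski G) (Sle G 8) := by
  rintro ⟨D, hD, hd⟩
  rw [le8] at hD
  let _ := semiZariski G
  have h2 : Function.Injective io := fun a b e => funext fun n => by
    simpa [io] using LinearMap.congr_fun (congrArg G.w e) (Finsupp.single n 1)
  have h1 : ∀ n, (io ⁻¹' D n).Countable := fun n => by
    have := hd n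
    have : DiscreteTopology (io ⁻¹' D n) :=
      DiscreteTopology.of_continuous_injective (f := (D n).restrictPreimage io)
        (cont_io.restrictPreimage) ((D n).restrictPreimage_injective h2)
    exact countable_coe_iff.1 (TopologicalSpace.separableSpace_iff_countable.1 inferInstance)
  have h3 : (univ : Set (ℕ → K)).Countable :=
    (countable_iUnion h1).mono fun a _ => by rw [← preimage_iUnion, hD]; trivial
  have h4 : Countable (ℕ → K) := countable_univ_iff.1 h3
  obtain ⟨f, hf⟩ := exists_surjective_nat (ℕ → K)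
  obtain ⟨n, hn⟩ := hf fun n => f n n + 1
  simpa using congrFun hn n

/-- The semigroup for the first question. -/
inductive T
  | x (k : ℕ) | p (k : ℕ) | q (k : ℕ) | y (b : Bool) | z | o
  deriving DecidableEq

open T

def R : T → T → Prop
  | x k, p i => i ≤ k
  | y _, p _ => True
  | q i, x k => i = k
  | q i, p k => i = k
  | q i, q k => i + 1 = k
  | _, _ => False

open Classical in
noncomputable instance : Semigroup T where
  mul a b := if R a b then z else o
  mul_assoc a b c := by
    show (if R (if R a b then z else o) c then z else o) =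
      if R a (if R b c then z else o) then z else o
    have h1 : ∀ u, ¬ R z u ∧ ¬ R o u ∧ ¬ R u z ∧ ¬ R u o := fun u => by cases u <;> simp [R]
    split_ifs <;> simp_all

open Classical in
lemma mul_def (a b : T) : a * b = if R a b then z else o := rfl

lemma cm (a b : T) : a * b = b * a ↔ (R a b ↔ R b a) := by
  simp only [mul_def]
  split_ifs <;> simp_all

def lev : T → ℕ
  | x k => k + 1
  | p k => k + 1
  | q k => k + 1
  | _ => 0

lemma lev_fin (N : ℕ) : {t | lev t ≤ N}.Finite := by
  refine ((((finite_le_nat N).image x).union ((finite_le_nat N).image p)).union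
    (((finite_le_nat N).image q).union (toFinite {y true, y false, z, o}))).subset ?_
  rintro (k | k | k | b | _ | _) h <;> simp [lev] at h ⊢ <;> omega

lemma fdcT : FDC T := by
  intro F hF
  obtain ⟨N, hN⟩ := (hF.image lev).bddAbove
  have hq : ∀ k, N + 1 ≤ k → q k ∈ Set.centralizer F := fun k hk f hf => by
    have := hN (mem_image_of_mem lev hf)
    rw [cm]
    cases f <;> simp [R, lev] at this ⊢ <;> omega
  refine (lev_fin (N + 1)).subset fun g hg => ?_
  by_contra h
  cases g with
  | x k => simpa [cm, R] using hg _ (hq k (by simp [lev] at h; omega))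
  | p k => simpa [cm, R] using hg _ (hq k (by simp [lev] at h; omega))
  | q k =>
    have := hg _ (hq (k + 1) (by simp [lev] at h; omega))
    simp [cm, R] at this
    omega
  | _ => simp [lev] at h

lemma x_mem (k : ℕ) : x k ∈ Sle T 3 := by
  have : Set.centralizer (Set.centralizer {x k}) ⊆ {x k, z, o} := by
    intro g hg
    have h : ∀ u, (R (x k) u ↔ R u (x k)) → (R u g ↔ R g u) := fun u hu =>
      (cm _ _).1 (hg u fun f hf => by rw [hf, cm]; exact hu)
    cases g with
    | x j => simpa [R] using h (q j)
    | p j => simpa [R] using h (y true)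
    | q j => simpa [R] using h (x j)
    | y b => simpa [R] using h (p (k + 1))
    | _ => simp
  refine (encard_le_encard this).trans ((encard_insert_le _ _).trans ?_)
  rw [encard_pair (by simp)]
  rfl

lemma y_nmem : y true ∉ Sle T 3 := by
  have : (({y true, y false, z, o} : Finset T) : Set T) ⊆
      Set.centralizer (Set.centralizer {y true}) := by
    intro g hg u hu
    have := (cm _ _).1 (hu _ rfl)
    rw [cm]
    simp only [Finset.coe_insert, Finset.coe_singleton, mem_insert_iff, mem_singleton_iff] at hg
    rcases hg with rfl | rfl | rfl | rfl <;> cases u <;> simp_all [R]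
  intro h
  have := (encard_le_encard this).trans h
  rw [encard_coe_eq_coe_finsetCard] at this
  exact absurd (Nat.cast_le.1 this) (by decide)

lemma ev (a b : WithOne T) : (a = 1 ∧ b = 1) ∨
    ((∀ᶠ k in atTop, a * x k * b = a * y true * b) ∧ ∀ k, a * y true * b ≠ x k) := by
  have hl : ∀ u : T, ∀ᶠ k in atTop, u * x k = u * y true := fun u =>
    (eventually_ge_atTop (lev u)).mono fun k hk => by
      cases u <;> simp [mul_def, R, lev] at hk ⊢ <;> omega
  have hr : ∀ u : T, ∀ᶠ k in atTop, x k * u = y true * u := fun u =>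
    (eventually_ge_atTop (lev u)).mono fun k hk => by
      cases u <;> simp [mul_def, R, lev] at hk ⊢ <;> omega
  have hn : ∀ (u v : T) k, u * v ≠ x k := fun u v k => by rw [mul_def]; split_ifs <;> simp
  induction a using WithOne.recOneCoe <;> induction b using WithOne.recOneCoe
  · simp
  · rename_i u
    refine Or.inr ⟨(hr u).mono fun k hk => ?_, fun k => ?_⟩
    · rw [one_mul, one_mul, ← WithOne.coe_mul, hk, WithOne.coe_mul]
    · rw [one_mul, ← WithOne.coe_mul]; exact fun h => hn _ _ _ (WithOne.coe_inj.1 h)
  · rename_i u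
    refine Or.inr ⟨(hl u).mono fun k hk => ?_, fun k => ?_⟩
    · rw [← WithOne.coe_mul, hk, WithOne.coe_mul]
    · rw [mul_one, ← WithOne.coe_mul]; exact fun h => hn _ _ _ (WithOne.coe_inj.1 h)
  · rename_i u v
    refine Or.inr ⟨(hl u).mono fun k hk => ?_, fun k => ?_⟩
    · rw [← WithOne.coe_mul, hk, WithOne.coe_mul]
    · rw [← WithOne.coe_mul, ← WithOne.coe_mul]; exact fun h => hn _ _ _ (WithOne.coe_inj.1 h)

lemma tend : Tendsto x atTop (@nhds T (semiZariski T) (y true)) := by
  refine TopologicalSpace.tendsto_nhds_generateFrom_iff.2 ?_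
  rintro U (⟨a, b, c, rfl⟩ | ⟨a, b, c, d, rfl⟩) hy
  · rcases ev a b with ⟨rfl, rfl⟩ | ⟨h, -⟩
    · induction c using WithOne.recOneCoe with
      | one => simp
      | coe c =>
        refine (eventually_ge_atTop (lev c)).mono fun k hk h => ?_
        rw [one_mul, mul_one, WithOne.coe_inj] at h
        simp [← h, lev] at hk
    · exact h.mono fun k hk e => hy (hk ▸ e)
  · rcases ev a b with ⟨rfl, rfl⟩ | ⟨h, h1⟩ <;> rcases ev c d with ⟨rfl, rfl⟩ | ⟨h', h2⟩
    · exact absurd rfl hy
    · exact h'.mono fun k hk e => h2 k (by rw [← hk, ← e]; simp)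
    · exact h.mono fun k hk e => h1 k (by rw [← hk, e]; simp)
    · exact (h.and h').mono fun k hk e => hy (by rw [← hk.1, ← hk.2]; exact e)

theorem parts :
    (∃ (S : Type) (_ : Semigroup S), FDC S ∧ ∃ n, ¬ IsClosed[semiZariski S] (Sle S n)) ∧
    (∃ (S : Type) (_ : Group S), FDC S ∧ ∃ n, ¬ SigmaDiscrete (semiZariski S) (Sle S n)) :=
  ⟨⟨T, inferInstance, fdcT, 3, fun h => y_nmem (by
    let _ := semiZariski T
    exact h.mem_of_tendsto tend (Eventually.of_forall x_mem))⟩,
   G, inferInstance, fdc, 8, q2⟩

end Pool.Agent.Results.MP_b73301_gt.BothFail
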