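import Mathlib
import Pool.Agent.H47.Cantor7

namespace Pool.Agent.Results.MP_ba8092_nt.FullDim
open Finset Filter Topology

/-- `E 1, E 2, ...` are the digits of the `q`-Cantor series expansion of `x`. -/
def IsExpansion (q : ℕ → ℕ) (x : ℝ) (E : ℕ → ℕ) : Prop :=
  (∀ n, 1 ≤ n → E n < q n) ∧ {n | 1 ≤ n ∧ E n ≠ q n - 1}.Infinite ∧
    HasSum (fun n => (E (n + 1) : ℝ) / ∏ j ∈ Icc 1 (n + 1), (q j : ℝ)) (x - ⌊x⌋)

/-- `Q_n^{(k)}` -/
noncomputable def Qsum (q : ℕ → ℕ) (k n : ℕ) : ℝ :=
  ∑ j ∈ Icc 1 n, (∏ t ∈ range k, (q (j + t) : ℝ))⁻¹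

open Classical in
/-- number of positions `1 ≤ i ≤ n` at which the block `B` occurs in the digit sequence `E` -/
noncomputable def count (E : ℕ → ℕ) (k : ℕ) (B : Fin k → ℕ) (n : ℕ) : ℕ :=
  ((Icc 1 n).filter (fun i => ∀ t : Fin k, E (i + t) = B t)).card

/-- normality of order `k` of the number with digit sequence `E` -/
def NormalOrder (q E : ℕ → ℕ) (k : ℕ) : Prop :=
  ∀ B : Fin k → ℕ, Tendsto (fun n => (count E k B n : ℝ) / Qsum q k n) atTop (𝓝 1)

open Classical in
/-- `x` is `q`-distribution normal: `q_1 ... q_n x mod 1`, `n ≥ 0`, is uniformly distributed -/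
def DistNormal (q : ℕ → ℕ) (x : ℝ) : Prop :=
  ∀ a b : ℝ, 0 ≤ a → a ≤ b → b ≤ 1 → Tendsto (fun N : ℕ => (((range N).filter
    (fun n => Int.fract ((∏ j ∈ Icc 1 n, (q j : ℝ)) * x) ∈ Set.Ico a b)).card : ℝ) / N)
    atTop (𝓝 (b - a))

theorem shift (f : ℕ → ℝ) (n : ℕ) : ∑ j ∈ Icc 1 n, f j = ∑ i ∈ range n, f (i + 1) := by
  induction n with
  | zero => simp
  | succ n ih => rw [sum_range_succ, ← ih, sum_Icc_succ_top (by omega)]

open Classical in
theorem count_eq (E : ℕ → ℕ) (k : ℕ) (B : Fin k → ℕ) (n : ℕ) : (count E k B n : ℝ) =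
    ((range n).filter (fun i => ∀ t : Fin k, E (i + 1 + t) = B t)).card := by
  unfold count
  rw [← sum_boole, ← sum_boole, shift]

theorem ev_card (p p' : ℕ → Prop) [DecidablePred p] [DecidablePred p'] (N : ℕ)
    (h : ∀ i, N ≤ i → (p i ↔ p' i)) (D : ℕ → ℝ) (hD : Tendsto D atTop atTop) (L : ℝ)
    (lim : Tendsto (fun n => (((range n).filter p').card : ℝ) / D n) atTop (𝓝 L)) :
    Tendsto (fun n => (((range n).filter p).card : ℝ) / D n) atTop (𝓝 L) := by
  have := lim.add (hD.const_div_atTop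
    ((((range N).filter p).card : ℝ) - ((range N).filter p').card))
  rw [add_zero] at this
  refine this.congr' ?_
  filter_upwards [eventually_ge_atTop N] with n hn
  rw [← add_div]
  congr 1
  simp only [← sum_boole]
  rw [← sum_range_add_sum_Ico _ hn, ← sum_range_add_sum_Ico (fun i => if p i then (1 : ℝ) else 0) hn,
    sum_congr rfl (s₁ := Ico N n) (f := fun i => if p i then (1 : ℝ) else 0)
      (g := fun i => if p' i then (1 : ℝ) else 0) (fun i hi => by simp only [h i (mem_Ico.1 hi).1])]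
  ring

open Pool.Agent.H47.Cantor in
theorem core (q : ℕ → ℕ) (hq : ∀ n, 2 ≤ q n) (hqi : Tendsto q atTop atTop)
    (hd : ∀ k, 1 ≤ k → Tendsto (Qsum q k) atTop atTop) (l : ℕ) (hl : 1 ≤ l) :
    1 ≤ dimH {x : ℝ | ∃ E, IsExpansion q x E ∧ (∀ k, l ≤ k → NormalOrder q E k) ∧
      (∀ k, 1 ≤ k → k < l → ¬ NormalOrder q E k) ∧ ¬ DistNormal q x} := by
  classical
  have eQ : ∀ k n, Qsum q k n = ∑ i ∈ range n, (∏ t ∈ range k, (q (i + 1 + t) : ℝ))⁻¹ :=
    fun k n => shift _ n
  obtain ⟨ω, h1, h2, h3⟩ := skeleton q hq hqi fun k hk => (hd k hk).congr (eQ k)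
  simp only [← eQ] at h1 h2
  set kept : ℕ → Prop := fun n => ∃ i, i ≤ n ∧ n < i + l ∧ ∀ t < l, ω (i + t) < Nat.sqrt (q (i + t))
    with hkept
  have ks : ∀ n, kept n → ω n < Nat.sqrt (q n) := fun n ⟨i, a, b, c⟩ => by
    have := c (n - i) (by omega)
    rwa [show i + (n - i) = n by omega] at this
  have sq : ∀ n, Nat.sqrt (q n) + q n / 4 < q n := fun n => by
    have a := Nat.sqrt_le (q n)
    have b := hq n
    by_cases c : 2 ≤ Nat.sqrt (q n)
    · have := Nat.mul_le_mul_right (Nat.sqrt (q n)) c; omega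
    · omega
  have s1 : ∀ n, 1 ≤ Nat.sqrt (q n) := fun n => Nat.le_sqrt.2 (by have := hq n; omega)
  refine dim_ge q (fun n => if kept n then ω n else Nat.sqrt (q n))
    (fun n => if kept n then 0 else q n / 4) hq hqi (fun n => ?_) (4 * Real.exp 100)
    (by positivity) ?_ _ fun e he => ?_
  · have := sq n
    split_ifs with h
    · have := ks n h; omega
    · omega
  · filter_upwards [(tendsto_add_atTop_nat 1).eventually h3, eventually_ge_atTop 1] with N hN hN1
    have L0 : ∀ i, 0 ≤ (if ω i < Nat.sqrt (q i) then Real.log (q i) else 0) := fun i => by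
      split_ifs
      · exact Real.log_natCast_nonneg _
      · exact le_rfl
    have b1 : ∑ i ∈ Icc 1 N, (if ω i < Nat.sqrt (q i) then Real.log (q i) else 0) ≤ N * 100 := by
      refine (sum_le_sum_of_subset_of_nonneg (t := range (N + 1)) (fun i hi => by
        simp only [mem_Icc, mem_range] at hi ⊢; omega) fun i _ _ => L0 i).trans (hN.trans ?_)
      have : (1 : ℝ) ≤ N := by exact_mod_cast hN1
      push_cast; linarith
    calc (PP q N : ℝ) = ∏ j ∈ Icc 1 N, (q j : ℝ) := PP_cast q N
      _ ≤ ∏ j ∈ Icc 1 N, (4 * Real.exp (if ω j < Nat.sqrt (q j) then Real.log (q j) else 0) *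
          (((if kept j then 0 else q j / 4 : ℕ) : ℝ) + 1)) := by
          refine prod_le_prod (fun j _ => by positivity) fun j _ => ?_
          have q0 : (0 : ℝ) < q j := by have := hq j; exact_mod_cast (by omega)
          by_cases h : kept j
          · rw [if_pos h, if_pos (ks j h), Real.exp_log q0]; push_cast; linarith
          · rw [if_neg h]
            have e1 := Real.one_le_exp (L0 j)
            have e2 : (q j : ℝ) ≤ 4 * (((q j / 4 : ℕ) : ℝ) + 1) := by
              exact_mod_cast (by omega : q j ≤ 4 * (q j / 4 + 1))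
            have e3 : (0 : ℝ) ≤ ((q j / 4 : ℕ) : ℝ) := by positivity
            nlinarith
      _ ≤ _ := by
          rw [prod_mul_distrib, prod_mul_distrib, ← Real.exp_sum, prod_const, Nat.card_Icc,
            Nat.add_sub_cancel, mul_pow, ← Real.exp_nat_mul]
          gcongr
  · have e1 : ∀ n, e n ≤ Nat.sqrt (q n) + q n / 4 := fun n => by
      have := (he n).2
      by_cases h : kept n
      · have := ks n h; simp only [h, if_true] at *; omega
      · simpa only [h, if_false] using this
    have e2 : ∀ n, kept n → e n = ω n := fun n h => by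
      have := he n; simp only [h, if_true] at this; omega
    have e3 : ∀ n, e n < Nat.sqrt (q n) → kept n := fun n h => by
      by_contra hc
      have := he n; simp only [hc, if_false] at this; omega
    have val : ∀ n, 1 ≤ n → e n < q n := fun n _ => lt_of_le_of_lt (e1 n) (sq n)
    have hs := (summ q e hq val).hasSum
    set x := ∑' n, (e (n + 1) : ℝ) / ∏ j ∈ Icc 1 (n + 1), (q j : ℝ) with hx
    obtain ⟨N, hN⟩ := eventually_atTop.1 (hqi.eventually_ge_atTop 16)
    have e4 : ∀ n, N ≤ n → 4 * (e n + 1) ≤ 3 * q n := fun n hn => by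
      have a := Nat.sqrt_le (q n)
      have b := hN n hn
      have c : 4 ≤ Nat.sqrt (q n) := Nat.le_sqrt.2 b
      have := Nat.mul_le_mul_right (Nat.sqrt (q n)) c
      have := e1 n
      omega
    have fr : ∀ n, N ≤ n → 0 ≤ (PP q n : ℝ) * x - J q e n ∧ (PP q n : ℝ) * x - J q e n ≤ 3 / 4 := by
      intro n hn
      have a1 := (J_bounds q e hq val x hs n).1
      have a2 := (J_bounds q e hq val x hs (n + 1)).2
      have p := PP_pos q hq n
      have q0 : (0 : ℝ) < q (n + 1) := by have := hq (n + 1); exact_mod_cast (by omega)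
      have a3 : 4 * ((e (n + 1) : ℝ) + 1) ≤ 3 * q (n + 1) := by exact_mod_cast e4 (n + 1) (by omega)
      rw [div_le_iff₀ p] at a1
      rw [J_succ, PP_succ] at a2
      push_cast at a2
      rw [le_div_iff₀ (by positivity)] at a2
      refine ⟨by linarith, ?_⟩
      by_contra hc
      nlinarith [mul_lt_mul_of_pos_right (not_le.1 hc) q0]
    have fl : ⌊x⌋ = 0 := by
      refine Int.floor_eq_zero_iff.2 ⟨tsum_nonneg fun n => by positivity, ?_⟩
      have a1 := (fr N le_rfl).2
      have a2 : (J q e N : ℝ) + 1 ≤ PP q N := by exact_mod_cast J_lt q e val N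
      have p := PP_pos q hq N
      by_contra hc
      nlinarith [mul_le_mul_of_nonneg_left (not_lt.1 hc) p.le]
    refine ⟨e, ⟨val, (Set.Ici_infinite (N + 1)).mono fun n hn => ?_, by simpa [fl] using hs⟩,
      fun k hk B => ?_, fun k hk hkl h => ?_, fun h => ?_⟩
    · have a : N + 1 ≤ n := hn
      have := e4 n (by omega)
      have := hN n (by omega)
      exact ⟨by omega, by omega⟩
    · simp only [count_eq]
      obtain ⟨M, hM⟩ := eventually_atTop.1
        ((sqrt_tendsto.comp hqi).eventually_gt_atTop (univ.sup B))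
      refine ev_card _ _ M (fun i hi => ?_) _ (hd k (by omega)) 1 (h1 k (by omega) B)
      have bt : ∀ t : Fin k, B t < Nat.sqrt (q (i + 1 + t)) := fun t =>
        lt_of_le_of_lt (le_sup (f := B) (mem_univ t)) (hM _ (by omega))
      constructor
      · intro h t
        rw [← e2 _ (e3 _ (h t ▸ bt t)), h t]
      · intro h t
        have ht := t.2
        rw [e2 _ ⟨i + 1 + min (t : ℕ) (k - l), by omega, by omega, fun u hu => ?_⟩, h t]
        have := h ⟨min (t : ℕ) (k - l) + u, by omega⟩
        have b := bt ⟨min (t : ℕ) (k - l) + u, by omega⟩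
        simp only [← add_assoc] at this b
        rw [this]; exact b
    · have a1 := (h fun _ => 0).add (h2 k hk)
      have a2 := le_of_tendsto_of_tendsto a1 (h1 k hk fun _ => 0) ?_
      · norm_num at a2
      filter_upwards [(hd k hk).eventually_gt_atTop 0] with n hn
      rw [← add_div, count_eq]
      refine div_le_div_of_nonneg_right ?_ hn.le
      rw [← Nat.cast_add, ← card_union_of_disjoint (disjoint_filter.2 fun i _ ha hb => ?_)]
      · refine Nat.cast_le.2 (card_le_card fun i hi => ?_)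
        simp only [mem_union, mem_filter] at hi ⊢
        rcases hi with ⟨a, b⟩ | ⟨a, b⟩
        · exact ⟨a, fun t => by rw [← e2 _ (e3 _ (by rw [b t]; exact s1 _)), b t]⟩
        · exact ⟨a, fun t => b.2.1 t t.2⟩
      · obtain ⟨j, a, b, c⟩ := e3 (i + 1) (by
          have := ha ⟨0, hk⟩
          simp only [add_zero] at this
          rw [this]; exact s1 _)
        by_cases hj : j ≤ i
        · have := c (i - j) (by omega)
          rw [show j + (i - j) = i by omega] at this
          omega
        · have := c k hkl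
          rw [show j + k = i + k + 1 by omega] at this
          omega
    · have a1 := h (4 / 5) 1 (by norm_num) (by norm_num) le_rfl
      have a2 := ev_card (fun n => Int.fract ((∏ j ∈ Icc 1 n, (q j : ℝ)) * x) ∈
        Set.Ico (4 / 5 : ℝ) 1) (fun _ => False) N (fun n hn => ?_) _ tendsto_natCast_atTop_atTop 0
        (by simp)
      · have := tendsto_nhds_unique a1 a2
        norm_num at this
      · obtain ⟨b1, b2⟩ := fr n hn
        rw [← PP_cast, ← Int.fract_sub_natCast _ (J q e n), Int.fract_eq_self.2 ⟨b1, by linarith⟩]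
        exact iff_false_intro fun hh => by linarith [hh.1]

theorem parts (q : ℕ → ℕ) (hq : ∀ n, 2 ≤ q n) (hqi : Tendsto q atTop atTop)
    (hd : ∀ k, 1 ≤ k → Tendsto (Qsum q k) atTop atTop) :
    dimH {x : ℝ | (∃ E, IsExpansion q x E ∧ ∀ k, 1 ≤ k → NormalOrder q E k) ∧
      ¬ DistNormal q x} = 1 ∧
    ∀ l, 1 ≤ l → dimH {x : ℝ | ∃ E, IsExpansion q x E ∧ (∀ k, l ≤ k → NormalOrder q E k) ∧
      ∀ k, 1 ≤ k → k < l → ¬ NormalOrder q E k} = 1 := by
  refine ⟨le_antisymm ((dimH_mono (Set.subset_univ _)).trans Real.dimH_univ.le)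
    ((core q hq hqi hd 1 le_rfl).trans (dimH_mono ?_)), fun l hl => le_antisymm
    ((dimH_mono (Set.subset_univ _)).trans Real.dimH_univ.le)
    ((core q hq hqi hd l hl).trans (dimH_mono ?_))⟩
  · rintro x ⟨E, a, b, _, d⟩
    exact ⟨⟨E, a, b⟩, d⟩
  · rintro x ⟨E, a, b, c, _⟩
    exact ⟨E, a, b, c⟩

end Pool.Agent.Results.MP_ba8092_nt.FullDim
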