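import Mathlib

open Set MeasureTheory ProbabilityTheory Filter Topology

namespace Pool.Agent.Results.MP_c4c6a0_pr.Rotor

/-- vertices of the `d`-ary tree: the root is `[]`, child `i` of `v` is `i :: v` -/
abbrev V (d : ℕ) := List (Fin d)

/-- the vertex `v_r`: the parent (the root for the root) if `r = 0`, else a child -/
def mv {d : ℕ} (v : V d) (r : Fin (d + 1)) : V d := Fin.cases v.tail (fun i => i :: v) r

/-- position of the particle and the number of departures made so far from each vertex -/
def walk {d : ℕ} (c : V d → ℕ → Fin (d + 1)) : ℕ → V d × (V d → ℕ)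
  | 0 => ([], 0)
  | n + 1 => (mv (walk c n).1 (c (walk c n).1 ((walk c n).2 (walk c n).1)),
      Function.update (walk c n).2 (walk c n).1 ((walk c n).2 (walk c n).1 + 1))

def Rec {d : ℕ} (c : V d → ℕ → Fin (d + 1)) : Prop := {n | (walk c n).1 = []}.Infinite

def Nondeg {d : ℕ} (a : ℕ → Fin (d + 1)) : Prop := ∀ r, {x | a x = r}.Infinite

/-- independent uniform shifts -/
noncomputable def μ (d L : ℕ) : Measure (V d → Fin L) := .infinitePi fun _ => uniformOn univ

variable {d : ℕ}

def cn (b : ℕ → Fin (d + 1)) (r : Fin (d + 1)) : ℕ → ℕ := Nat.count (b · = r)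

theorem cn_succ (b : ℕ → Fin (d + 1)) (r : Fin (d + 1)) (n : ℕ) :
    cn b r (n + 1) = cn b r n + if b n = r then 1 else 0 := Nat.count_succ ..

theorem mvl (i : Fin d) (v w w' : V d) (r : Fin (d + 1)) (h : w' = mv w r) :
    ((if i :: v <:+ w then 1 else 0) + if v = w ∧ r = i.succ then 1 else 0) =
      (if i :: v = w ∧ r = 0 then 1 else 0) + if i :: v <:+ w' then 1 else 0 := by
  subst h
  have l : ∀ j (w : V d), i :: v = j :: w → ¬ i :: v <:+ w := fun j w a b => by
    have := b.length_le; have := congrArg List.length a; simp at *; omega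
  cases r using Fin.cases with
  | zero =>
    cases w with
    | nil => simp [mv, (Fin.succ_ne_zero i).symm]
    | cons j w =>
      have := l j w
      simp only [mv, Fin.cases_zero, List.tail_cons, List.suffix_cons_iff,
        (Fin.succ_ne_zero i).symm, and_false, and_true, if_false]
      split_ifs <;> tauto
  | succ j =>
    have := l j w
    simp only [mv, Fin.cases_succ, List.suffix_cons_iff, Fin.succ_ne_zero, and_false, if_false,
      Fin.succ_inj, List.cons.injEq] at this ⊢
    split_ifs <;> first | rfl | tauto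

section det
variable (c : V d → ℕ → Fin (d + 1))

theorem D_eq (T : ℕ) (v : V d) : (walk c T).2 v = Nat.count (fun t => (walk c t).1 = v) T := by
  induction T with
  | zero => rfl
  | succ T ih =>
    rw [Nat.count_succ, ← ih]
    simp only [walk, Function.update_apply]
    by_cases h : v = (walk c T).1
    · simp [← h]
    · simp [h, Ne.symm h]

theorem len_le (T : ℕ) : (walk c T).1.length ≤ T := by
  induction T with
  | zero => rfl
  | succ T ih =>
    simp only [walk]
    cases c (walk c T).1 ((walk c T).2 (walk c T).1) using Fin.cases <;> simp [mv] <;> omega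

theorem bal (T : ℕ) (i : Fin d) (v : V d) : cn (c v) i.succ ((walk c T).2 v) =
    cn (c (i :: v)) 0 ((walk c T).2 (i :: v)) + if i :: v <:+ (walk c T).1 then 1 else 0 := by
  induction T with
  | zero => simp [walk, cn]
  | succ T ih =>
    have e : ∀ u r, cn (c u) r ((walk c (T + 1)).2 u) = cn (c u) r ((walk c T).2 u) +
        if u = (walk c T).1 ∧ c (walk c T).1 ((walk c T).2 (walk c T).1) = r then 1 else 0 :=
      fun u r => by
        simp only [walk, Function.update_apply]
        by_cases h : u = (walk c T).1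
        · subst h; simp [cn_succ]
        · simp [h]
    have := mvl i v (walk c T).1 (walk c (T + 1)).1 _ rfl
    rw [e, e, ih]
    omega

theorem visit {v : V d} (h : {n | (walk c n).1 = v}.Infinite) (x : ℕ) :
    ∃ T, x ≤ T ∧ (walk c T).1 = v ∧ (walk c T).2 v = x :=
  have e := (D_eq c _ v).trans (Nat.count_nth_of_infinite h x)
  ⟨_, (Nat.count_nth_of_infinite h x).ge.trans (Nat.count_le _), Nat.nth_mem_of_infinite h x, e⟩

theorem fin_all (hc : ∀ v, {x | c v x = 0}.Infinite) (h : ¬ Rec c) (v : V d) :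
    {n | (walk c n).1 = v}.Finite := by
  induction v with
  | nil => exact not_infinite.1 h
  | cons i v ih =>
    by_contra g
    obtain ⟨N, hN⟩ := ih.bddAbove
    obtain ⟨x, a, b⟩ := (hc (i :: v)).exists_gt N
    obtain ⟨T, p, q, r⟩ := visit c g x
    have := hN (a := T + 1) (by
      simp only [mem_ofPred_eq, walk, q, r] at a ⊢
      simp [a, mv])
    omega
end det

section prob
variable {L : ℕ}

instance [NeZero L] : IsProbabilityMeasure (μ d L) := by unfold μ; infer_instance

abbrev F (S : Set (V d)) : MeasurableSpace (V d → Fin L) :=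
  ⨆ u ∈ S, .comap (fun ω => ω u) inferInstance

theorem Fm {S T : Set (V d)} (h : S ⊆ T) : F (L := L) S ≤ F T := biSup_mono h

theorem ind [NeZero L] {S T : Set (V d)} (h : Disjoint S T) : Indep (F S) (F T) (μ d L) :=
  indep_iSup_of_disjoint (fun u => (measurable_pi_apply u).comap_le)
    (iIndepFun_infinitePi (X := fun _ s => s) fun _ => measurable_id) h

theorem prodI [NeZero L] {J : Type} (t : Finset J) (S : J → Set (V d)) (A : J → Set (V d → Fin L))
    (hS : Pairwise (Function.onFun Disjoint S)) (hA : ∀ j, MeasurableSet[F (S j)] (A j)) :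
    μ d L (⋂ j ∈ t, A j) = ∏ j ∈ t, μ d L (A j) := by
  classical
  induction t using Finset.induction_on with
  | empty => simp
  | insert a t h ih =>
    rw [Finset.set_biInter_insert, Finset.prod_insert h, ← ih]
    refine (Indep_iff ..).1 (ind (T := ⋃ j ∈ t, S j) ?_) _ _ (hA a) (t.measurableSet_biInter
      fun j g => Fm (subset_biUnion_of_mem (u := S) g) _ (hA j))
    exact disjoint_iUnion₂_right.2 fun j g => hS fun e => h (e ▸ g)

theorem μ_ev [NeZero L] (v : V d) (B : Set (Fin L)) : μ d L {ω | ω v ∈ B} = uniformOn univ B :=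
  (measurePreserving_eval_infinitePi _ v).measure_preimage
    MeasurableSet.of_discrete.nullMeasurableSet

/-- extinction within `n` generations of the type `k` branching process below `v` -/
def E (U : Fin L → Fin d → ℕ → ℕ) : ℕ → V d → ℕ → Set (V d → Fin L)
  | 0, _, k => {_ω | k = 0}
  | n + 1, v, k => ⋃ s, {ω | ω v ∈ ({s} : Set _)} ∩ ⋂ i, E U n (i :: v) (U s i k)

theorem mev {S : Set (V d)} {v : V d} (h : v ∈ S) (B : Set (Fin L)) :
    MeasurableSet[F S] {ω | ω v ∈ B} :=
  le_iSup₂ (f := fun u (_ : u ∈ S) => MeasurableSpace.comap (fun ω : V d → Fin L => ω u)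
    inferInstance) v h _ ⟨B, .of_discrete, rfl⟩

theorem E_meas (U : Fin L → Fin d → ℕ → ℕ) (n : ℕ) : ∀ v k,
    MeasurableSet[F {u | v <:+ u}] (E U n v k) := by
  induction n with
  | zero => exact fun v k => .const _
  | succ n ih =>
    exact fun v k => .iUnion fun s => .inter (mev List.suffix_rfl _) (.iInter fun i =>
      Fm (fun u g => (List.suffix_cons i v).trans g) _ (ih (i :: v) _))

theorem E_le [NeZero L] (U : Fin L → Fin d → ℕ → ℕ) (l : ENNReal)
    (h : ∀ k, ∑ s, l ^ (∑ i, U s i k) ≤ L * l ^ k) (n : ℕ) : ∀ v k, μ d L (E U n v k) ≤ l ^ k := by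
  induction n with
  | zero =>
    intro v k
    rcases eq_or_ne k 0 with rfl | g
    · simp [E]
    · simp [E, g]
  | succ n ih =>
    intro v k
    refine (measure_iUnion_fintype_le _ _).trans ((Finset.sum_le_sum (g := fun s =>
      (L : ENNReal)⁻¹ * l ^ (∑ i, U s i k)) fun s _ => ?_).trans ?_)
    · let S : Option (Fin d) → Set (V d) := fun j => j.elim {v} fun i => {u | i :: v <:+ u}
      have a : ∀ i, Disjoint (S none) (S (some i)) := fun i =>
        disjoint_singleton_left.2 fun g => by simpa using List.IsSuffix.length_le g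
      have := prodI Finset.univ S (fun j => j.elim {ω | ω v ∈ ({s} : Set _)}
        fun i => E U n (i :: v) (U s i k)) (fun i j g => ?_) fun i => ?_
      · simp only [Finset.mem_univ, iInter_true, iInter_option, Fintype.prod_option, Option.elim]
          at this
        rw [this, μ_ev, ← Finset.prod_pow_eq_pow_sum]
        exact mul_le_mul' (by simp [uniformOn_univ]) (Finset.prod_le_prod' fun i _ => ih _ _)
      · rcases i with _ | i <;> rcases j with _ | j
        · exact (g rfl).elim
        · exact a j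
        · exact (a i).symm
        · refine disjoint_left.2 fun u (p : i :: v <:+ u) (q : j :: v <:+ u) => g ?_
          simpa using List.IsSuffix.eq_of_length
            (List.suffix_of_suffix_length_le p q (by simp)) (by simp)
      · cases i
        exacts [mev (mem_singleton v) {s}, E_meas U n _ _]
    · rw [← Finset.mul_sum]
      refine (mul_le_mul_right (h k) _).trans_eq ?_
      rw [← mul_assoc, ENNReal.inv_mul_cancel (by simpa using NeZero.ne L) (by simp), one_mul]
end prob

/-- number of departures up to the `k`-th one to the parent -/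
noncomputable def Z (b : ℕ → Fin (d + 1)) (k : ℕ) : ℕ := sInf {n | k ≤ cn b 0 n}

theorem cn_sum (b : ℕ → Fin (d + 1)) (n : ℕ) : cn b 0 n + ∑ i : Fin d, cn b i.succ n = n := by
  rw [← Fin.sum_univ_succ fun r => cn b r n]
  induction n with
  | zero => simp [cn]
  | succ n ih => simp [cn_succ, Finset.sum_add_distrib, ih]

theorem cn_Z {b : ℕ → Fin (d + 1)} (h : {x | b x = 0}.Infinite) (k : ℕ) : cn b 0 (Z b k) = k := by
  have m : k ≤ cn b 0 (Z b k) := Nat.sInf_mem (s := {n | k ≤ cn b 0 n})
    ⟨_, (Nat.count_nth_of_infinite h k).ge⟩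
  rcases e : Z b k with _ | n
  · simpa [e, cn, eq_comm] using m
  · have : ¬ k ≤ cn b 0 n := Nat.notMem_of_lt_sInf (s := {n | k ≤ cn b 0 n}) (by unfold Z at e; omega)
    rw [e, cn_succ] at m
    rw [cn_succ]; split_ifs at * <;> omega

theorem Z_low {b : ℕ → Fin (d + 1)} (h : {x | b x = 0}.Infinite) (k m : ℕ) :
    m * k ≤ k * min m (Z b k) + ∑ n ∈ Finset.range m, cn b 0 n := by
  induction m with
  | zero => simp
  | succ m ih =>
    rw [Finset.sum_range_succ]
    rcases lt_or_ge m (Z b k) with g | g
    · rw [min_eq_left g.le] at ih; rw [min_eq_left g]; nlinarith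
    · have : k ≤ cn b 0 m := (cn_Z h k).ge.trans (Nat.count_monotone _ g)
      rw [min_eq_right g] at ih; rw [min_eq_right (by omega)]; nlinarith

section per
variable {a : ℕ → Fin (d + 1)} {L : ℕ} (hp : Function.Periodic a L)
include hp

theorem win (s : ℕ) : cn (fun x => a (x + s)) 0 L = cn a 0 L := by
  induction s with
  | zero => rfl
  | succ s ih =>
    have p := cn_succ (fun x => a (x + s)) 0 L
    have q : cn (fun x => a (x + s)) 0 (L + 1) = cn (fun x => a (x + (s + 1))) 0 L +
        if a (L + s) = 0 then 1 else 0 := by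
      rw [add_comm L s, hp s]
      simp only [cn, Nat.count_succ', zero_add, add_assoc, add_comm 1 s]
    omega

theorem avg (n : ℕ) : ∑ s : Fin L, cn (fun x => a (x + s)) 0 n = n * cn a 0 L := by
  induction n with
  | zero => simp [cn]
  | succ n ih =>
    simp only [cn_succ, Finset.sum_add_distrib, ih, add_mul, one_mul]
    rw [← win hp n, cn, Nat.count_eq_card_filter_range, Finset.card_filter,
      Fin.sum_univ_eq_sum_range (fun s => if a (n + s) = 0 then 1 else 0)]
    simp only [add_comm n]

theorem upper (h4 : 4 * cn a 0 L ≤ L) (hL : 0 < L) (s n : ℕ) :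
    4 * cn (fun x => a (x + s)) 0 n ≤ n + L := by
  induction n using Nat.strong_induction_on with
  | _ n ih =>
    have w := win hp s
    rcases le_or_gt n L with g | g
    · have : cn (fun x => a (x + s)) 0 n ≤ cn (fun x => a (x + s)) 0 L := Nat.count_monotone _ g
      omega
    · obtain ⟨m, rfl⟩ := Nat.exists_eq_add_of_le g.le
      have := ih m (by omega)
      have e : cn (fun x => a (x + s)) 0 (L + m) =
          cn (fun x => a (x + s)) 0 L + cn (fun x => a (x + s)) 0 m := by
        simp only [cn, Nat.count_add, add_assoc, fun y => (add_comm L y ▸ hp y : a (L + y) = a y)]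
      omega

theorem mean (h4 : 4 * cn a 0 L ≤ L) (hL : 0 < L) (hz : ∀ s, {x | a (x + s) = 0}.Infinite)
    {k : ℕ} (hk : 0 < k) : L * (2 * k) < ∑ s : Fin L, Z (fun x => a (x + s)) k := by
  have := Finset.sum_le_sum (s := Finset.univ) fun (s : Fin L) _ => (Z_low (hz s) k (4 * k)).trans
    (Nat.add_le_add_right (Nat.mul_le_mul_left k (min_le_right _ _)) _)
  rw [Finset.sum_add_distrib, Finset.sum_comm] at this
  simp only [avg hp, ← Finset.sum_mul, ← Finset.mul_sum, Finset.sum_const, Finset.card_univ, Fintype.card_fin,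
    smul_eq_mul] at this
  have e := Finset.sum_range_id_mul_two (4 * k)
  obtain ⟨j, hj⟩ : ∃ j, 4 * k = j + 1 := ⟨4 * k - 1, by omega⟩
  rw [show 4 * k - 1 = j by omega] at e
  by_contra! g
  have := Nat.mul_le_mul_left k g
  have := Nat.mul_le_mul_left (k * j) h4
  have := Nat.mul_pos hk hL
  have f : (∑ i ∈ Finset.range (4 * k), i) * cn a 0 L * 2 = k * j * (4 * cn a 0 L) := by
    rw [mul_right_comm, e]; ring
  have : k * j * L + k * L = 4 * k * k * L := by
    rw [show 4 * k * k * L = (4 * k) * (k * L) by ring, hj]; ring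
  nlinarith

theorem lam (h4 : 4 * cn a 0 L ≤ L) (hL : 0 < L) (hz : ∀ s, {x | a (x + s) = 0}.Infinite) :
    ∃ l : ℝ, 0 < l ∧ l < 1 ∧ ∀ k, ∑ s : Fin L, l ^ Z (fun x => a (x + s)) k ≤ L * l ^ (2 * k) := by
  have : ∀ᶠ l : ℝ in 𝓝[<] 1, ∀ k ∈ Finset.Ioo 0 L,
      ∑ s : Fin L, l ^ Z (fun x => a (x + s)) k - L * l ^ (2 * k) < 0 := by
    refine (eventually_all_finset _).2 fun k hk => ?_
    have D := (HasDerivAt.fun_sum (u := Finset.univ) fun (s : Fin L) _ => hasDerivAt_pow
      (Z (fun x => a (x + s)) k) (1 : ℝ)).fun_sub ((hasDerivAt_pow (2 * k) (1 : ℝ)).const_mul (L : ℝ))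
    have p : (L * (2 * k : ℕ) : ℝ) < ∑ s : Fin L, (Z (fun x => a (x + s)) k : ℝ) := by
      exact_mod_cast mean hp h4 hL hz (Finset.mem_Ioo.1 hk).1
    filter_upwards [(hasDerivAt_iff_tendsto_slope_left_right.1 D).1.eventually
      (lt_mem_nhds (a := 0) (by simpa using p)), self_mem_nhdsWithin] with l u (v : l < 1)
    rw [slope_def_field, div_pos_iff] at u
    simp only [one_pow, Finset.sum_const, Finset.card_univ, Fintype.card_fin, nsmul_eq_mul,
      sub_self, sub_zero] at u
    rcases u with u | u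
    · linarith
    · exact u.1
  obtain ⟨l, u, v⟩ := (this.and (Ioo_mem_nhdsLT zero_lt_one)).exists
  refine ⟨l, v.1, v.2, fun k => ?_⟩
  by_cases g : k ∈ Finset.Ioo 0 L
  · linarith [u k g]
  · refine (Finset.sum_le_card_nsmul _ _ (l ^ (2 * k)) fun s _ =>
      pow_le_pow_of_le_one v.1.le v.2.le ?_).trans_eq (by simp)
    have := upper hp h4 hL s (Z (fun x => a (x + s)) k)
    rw [cn_Z (hz s)] at this
    simp only [Finset.mem_Ioo] at g
    omega
end per

theorem trans {a : ℕ → Fin (d + 1)} {L : ℕ} (hL : 0 < L) (ha : Nondeg a)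
    (hp : Function.Periodic a L) (h4 : 4 * cn a 0 L ≤ L) :
    ∀ᵐ k ∂μ d L, ¬ Rec fun v x => a (x + k v) := by
  have : NeZero L := ⟨hL.ne'⟩
  have hz : ∀ s, {x | a (x + s) = 0}.Infinite := fun s => infinite_of_forall_exists_gt fun n => by
    obtain ⟨x, u, v⟩ := (ha 0).exists_gt (n + s)
    exact ⟨x - s, by rwa [mem_ofPred_eq, Nat.sub_add_cancel (by omega)], by omega⟩
  obtain ⟨l, l0, l1, hl⟩ := lam hp h4 hL hz
  let U : Fin L → Fin d → ℕ → ℕ := fun s i k =>
    cn (fun x => a (x + s)) i.succ (Z (fun x => a (x + s)) k)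
  have key := E_le U (.ofReal l) fun k => by
    simp only [← ENNReal.ofReal_pow l0.le, ← ENNReal.ofReal_natCast L]
    rw [← ENNReal.ofReal_sum_of_nonneg fun _ _ => by positivity,
      ← ENNReal.ofReal_mul (by positivity)]
    refine ENNReal.ofReal_le_ofReal (le_of_mul_le_mul_right ?_ (pow_pos l0 k))
    rw [Finset.sum_mul, mul_assoc, ← pow_add, ← two_mul]
    refine le_trans (le_of_eq (Finset.sum_congr rfl fun s _ => ?_)) (hl k)
    have := cn_sum (fun x => a (x + s)) (Z (fun x => a (x + s)) k)
    rw [cn_Z (hz s), add_comm] at this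
    rw [← pow_add, this]
  simp only [ae_iff, not_not]
  refine le_zero_iff.1 (ge_of_tendsto' (ENNReal.tendsto_pow_atTop_nhds_zero_of_lt_one
    (ENNReal.ofReal_lt_one.2 l1)) fun k => ?_)
  refine (measure_mono (t := ⋃ T, ⋂ n ≥ T, E U n [] k) fun ω h => ?_).trans ?_
  · obtain ⟨y, hy⟩ : ∃ y, k ≤ cn (fun x => a (x + ω [])) 0 y := ⟨_, (cn_Z (hz _) k).ge⟩
    obtain ⟨T, -, p, q⟩ := visit _ h y
    refine mem_iUnion.2 ⟨T, mem_iInter₂.2 fun n hn => ?_⟩
    suffices ∀ n v k, T ≤ v.length + n → k ≤ cn (fun x => a (x + ω v)) 0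
      ((walk (fun v x => a (x + ω v)) T).2 v) → ω ∈ E U n v k from this n [] k (by simpa) (q ▸ hy)
    intro n
    induction n with
    | zero =>
      intro v k u w
      rw [D_eq, (Nat.count_iff_forall_not (n := T)).2 fun t b e => by
        have := len_le (fun v x => a (x + ω v)) t; rw [e] at this; omega] at w
      exact Nat.le_zero.1 w
    | succ n ih =>
      intro v k u w
      refine mem_iUnion.2 ⟨ω v, rfl, mem_iInter.2 fun i => ih _ _ (by simp; omega) ?_⟩
      have := bal (fun v x => a (x + ω v)) T i v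
      rw [p, if_neg (by simp), add_zero] at this
      exact (Nat.count_monotone _ (Nat.sInf_le (s := {n | k ≤ _}) w)).trans this.le
  · rw [Monotone.measure_iUnion fun S T g => biInter_subset_biInter_left fun n => g.trans]
    exact iSup_le fun T => (measure_mono (biInter_subset_of_mem (le_refl T))).trans (key T [] k)

/-- the period word `1 2 3 0 0 0 0 0 0 0` -/
def a₀ (x : ℕ) : Fin 4 := if x % 10 = 0 then 1 else if x % 10 = 1 then 2 else if x % 10 = 2 then 3 else 0

theorem a₀_cn (s n : ℕ) : cn (fun x => a₀ (x + s)) 1 n + (s + 9) / 10 = (n + s + 9) / 10 ∧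
    cn (fun x => a₀ (x + s)) 2 n + (s + 8) / 10 = (n + s + 8) / 10 ∧
    cn (fun x => a₀ (x + s)) 3 n + (s + 7) / 10 = (n + s + 7) / 10 := by
  induction n with
  | zero => simp [cn]
  | succ n ih =>
    simp only [cn_succ, a₀] at ih ⊢
    split_ifs <;> first | omega | contradiction

theorem a₀_half (s n : ℕ) (i : Fin 3) :
    2 * cn (fun x => a₀ (x + s)) i.succ n ≤ cn (fun x => a₀ (x + s)) 0 n + 2 := by
  have := cn_sum (fun x => a₀ (x + s)) n
  have := a₀_cn s n
  rw [Fin.sum_univ_three] at *
  fin_cases i <;> simp only [Fin.reduceFinMk, Fin.reduceSucc, Fin.isValue] at * <;> omega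

theorem recur : ∀ᵐ k ∂μ 3 10, Rec fun v x => a₀ (x + k v) := by
  have z : ∀ s, {x | a₀ (x + s) = 0}.Infinite := fun s => infinite_of_forall_exists_gt fun n =>
    ⟨10 * (n + s) + 15 - s, by
      simp only [mem_ofPred_eq, a₀]; split_ifs <;> first | omega | rfl, by omega⟩
  let C : ∀ M r : ℕ, (Fin (M + r) → Fin 3) → Set (V 3 → Fin 10) := fun M r f =>
    pi ((Finset.range r).image fun j => (List.ofFn f).drop j : Finset (V 3)) fun _ => Iio 3
  refine measure_mono_null (t := ⋃ M, ⋂ r, ⋃ f, C M r f) (fun ω h => ?_)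
    (measure_iUnion_null fun M => ?_)
  · let c : V 3 → ℕ → Fin 4 := fun v x => a₀ (x + ω v)
    have fa := fin_all c (fun v => z _) h
    obtain ⟨M, hM⟩ : ∃ M, ∀ T, (walk c T).2 [] ≤ M :=
      ⟨_, fun T => (D_eq c T []).trans_le (Nat.count_le_card (fa []) T)⟩
    refine mem_iUnion.2 ⟨M, mem_iInter.2 fun r => ?_⟩
    obtain ⟨T, hT⟩ := ((List.finite_length_le (Fin 3) (M + r)).biUnion
      fun v _ => fa v).infinite_compl.nonempty
    simp only [mem_compl_iff, mem_iUnion, mem_ofPred_eq, exists_prop, exists_eq_right', not_le] at hT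
    have dec : ∀ u, u <:+ (walk c T).1 → cn (c u) 0 ((walk c T).2 u) ≤ M - u.length := by
      intro u g
      induction u with
      | nil => exact (Nat.count_le _).trans (hM T)
      | cons i u ih =>
        have := ih ((List.suffix_cons i u).trans g)
        have p := bal c T i u
        have := a₀_half (ω u) ((walk c T).2 u) i
        rw [if_pos g] at p
        simp only [List.length_cons, c] at *
        omega
    obtain ⟨w, hw, e⟩ : ∃ w : V 3, w <:+ (walk c T).1 ∧ w.length = M + r :=
      ⟨_, List.drop_suffix ((walk c T).1.length - (M + r)) _, by simp; omega⟩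
    obtain ⟨f, rfl⟩ : ∃ f : Fin (M + r) → Fin 3, w = List.ofFn f :=
      ⟨fun j => w.get (j.cast e.symm), List.ext_get (by simp [e]) (by simp)⟩
    refine mem_iUnion.2 ⟨f, fun u g => ?_⟩
    obtain ⟨j, hj, rfl⟩ := Finset.mem_image.1 g
    have g := (List.drop_suffix j _).trans hw
    have l : ((List.ofFn f).drop j).length = M + r - j := by simp
    generalize (List.ofFn f).drop j = u at *
    obtain ⟨y, hy⟩ := id g
    rcases y.eq_nil_or_concat with rfl | ⟨y, i, rfl⟩
    · rw [← hy, List.nil_append] at hT; omega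
    have p := bal c T i u
    rw [if_pos ⟨y, by simpa using hy⟩] at p
    have q := dec u g
    rw [Finset.mem_range] at hj
    have := Nat.count_iff_forall_not.1 (Nat.le_zero.1 (q.trans_eq (by omega))) 0
      (Nat.pos_of_ne_zero fun o => by rw [o] at p; simp [cn] at p)
    exact (by decide : ∀ s : Fin 10, ¬ a₀ (0 + s) = 0 → s < 3) _ this
  · have t : Tendsto (fun r : ℕ => (3 ^ M : ENNReal) * (3 * (3 / 10)) ^ r) atTop (𝓝 0) := by
      simpa using ENNReal.Tendsto.const_mul (a := 3 ^ M)
        (ENNReal.tendsto_pow_atTop_nhds_zero_of_lt_one (r := 3 * (3 / 10)) (by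
          rw [← mul_div_assoc, ENNReal.div_lt_iff (by simp) (by simp)]; norm_num)) (by simp)
    refine le_zero_iff.1 (ge_of_tendsto' t fun r => (measure_mono (iInter_subset _ r)).trans
      ((measure_iUnion_fintype_le _ _).trans_eq ?_))
    have : ∀ f, μ 3 10 (C M r f) = (3 / 10) ^ r := fun f => by
      rw [μ, Measure.infinitePi_pi _ fun _ _ => .of_discrete, Finset.prod_const,
        Finset.card_image_of_injOn fun i hi j hj e => by
          have := congrArg List.length e; simp at *; omega, Finset.card_range, uniformOn_univ,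
        ← Finset.coe_Iio, Measure.count_apply_finset]
      simp
    simp [this, mul_pow, pow_add, mul_assoc]

theorem parts :
    (∀ d L : ℕ, 3 ≤ d → 0 < L → ∀ a : ℕ → Fin (d + 1), Nondeg a → Function.Periodic a L →
      ((∀ r, Nat.count (a · = r) L * (d + 1) = L) ∨ 4 * Nat.count (a · = 0) L ≤ L) →
      ∀ᵐ k ∂μ d L, ¬ Rec fun v x => a (x + k v)) ∧
    ∃ a : ℕ → Fin (3 + 1), Nondeg a ∧ Function.Periodic a 10 ∧
      ∀ᵐ k ∂μ 3 10, Rec fun v x => a (x + k v) := by
  refine ⟨fun d L hd hL a ha hp h => trans hL ha hp (h.elim (fun h => ?_) id), a₀, fun r => ?_,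
    fun x => by simp [a₀], recur⟩
  · have := h 0
    unfold cn; nlinarith
  · refine infinite_of_forall_exists_gt fun n => ⟨10 * (n + 1) + (r + 9) % 10, ?_, by omega⟩
    fin_cases r <;> simp [a₀]

end Pool.Agent.Results.MP_c4c6a0_pr.Rotor
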