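import Mathlib

/-! The nonzero rationals (and the positive rationals) are positive-existentially definable in
`(ℚ, 0, 1, +, squares)`. -/

namespace Pool.Agent.Results.MP_cd0533_lc.Nonzero

/-- `A` is a finite union of projections of sets cut out by integer linear equations and by atoms
saying that a linear term with natural coefficients is a square (the normal form used in the
frozen statements) -/
def PE (A : Set ℚ) : Prop :=
  ∃ (k m e s : ℕ) (α : Fin k → Fin e → ℤ) (β : Fin k → Fin e → Fin m → ℤ)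
    (γ : Fin k → Fin e → ℤ) (p : Fin k → Fin s → ℕ) (q : Fin k → Fin s → Fin m → ℕ)
    (r : Fin k → Fin s → ℕ),
    ∀ x : ℚ, x ∈ A ↔ ∃ i : Fin k, ∃ y : Fin m → ℚ,
      (∀ j : Fin e, (α i j : ℚ) * x + (∑ l : Fin m, (β i j l : ℚ) * y l) + (γ i j : ℚ) = 0) ∧
      (∀ j : Fin s, IsSquare ((p i j : ℚ) * x + (∑ l : Fin m, (q i j l : ℚ) * y l) + (r i j : ℚ)))

theorem four_sq {t : ℚ} (ht : 0 ≤ t) : ∃ a b c d : ℚ, t = a * a + b * b + c * c + d * d := by
  obtain ⟨a, b, c, d, h⟩ := Nat.sum_four_squares (t.num.toNat * t.den)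
  have hd : (t.den : ℚ) ≠ 0 := by exact_mod_cast t.den_ne_zero
  have h1 : ((t.num.toNat : ℕ) : ℚ) = t.num := by
    exact_mod_cast Int.toNat_of_nonneg (Rat.num_nonneg.2 ht)
  have h2 : (a : ℚ) ^ 2 + b ^ 2 + c ^ 2 + d ^ 2 = t.num * t.den := by
    rw [← h1]; exact_mod_cast h
  have h3 : (t.num : ℚ) = t * t.den := (Rat.mul_den_eq_num t).symm
  refine ⟨a / t.den, b / t.den, c / t.den, d / t.den, ?_⟩
  field_simp
  rw [h2, h3]; ring

theorem near_two {x : ℚ} (hx : 0 < x) : ∃ w : ℚ, 2 - x ≤ w * w ∧ w * w ≤ 2 := by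
  have h : Real.sqrt (2 - x) < Real.sqrt 2 :=
    Real.sqrt_lt_sqrt_iff_of_pos (by norm_num) |>.2 (by
      have : (0 : ℝ) < x := by exact_mod_cast hx
      linarith)
  obtain ⟨w, h1, h2⟩ := exists_rat_btwn h
  have h0 : (0 : ℝ) ≤ w := (Real.sqrt_nonneg _).trans h1.le
  have h3 : (2 : ℝ) - x ≤ w * w := by
    have h4 := Real.sqrt_le_left (x := (2 : ℝ) - x) h0 |>.1 h1.le
    nlinarith
  have h5 : (w : ℝ) * w ≤ 2 := by
    have := (Real.le_sqrt h0 (by norm_num : (0 : ℝ) ≤ 2)).1 h2.le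
    nlinarith
  exact ⟨w, by exact_mod_cast h3, by exact_mod_cast h5⟩

theorem pos_iff (x : ℚ) : 0 < x ↔ ∃ y : Fin 9 → ℚ,
    x = y 0 + y 1 + y 2 + y 3 + y 4 + y 5 + y 6 + y 7 ∧ y 0 + y 1 + y 2 + y 3 + y 8 = 2 ∧
      ∀ j, IsSquare (y j) := by
  constructor
  · intro hx
    obtain ⟨w, h1, h2⟩ := near_two hx
    obtain ⟨a, b, c, d, h3⟩ := four_sq (t := 2 - w * w) (by linarith)
    obtain ⟨a', b', c', d', h4⟩ := four_sq (t := x - (2 - w * w)) (by linarith)
    refine ⟨![a * a, b * b, c * c, d * d, a' * a', b' * b', c' * c', d' * d', w * w], ?_, ?_,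
      fun j => ?_⟩
    · simp; linarith
    · simp; linarith
    · fin_cases j <;> exact ⟨_, rfl⟩
  · rintro ⟨y, h1, h2, h3⟩
    have h0 : ∀ j, 0 ≤ y j := fun j => (h3 j).nonneg
    obtain ⟨w, hw⟩ := h3 8
    have hne : y 8 ≠ 2 := by
      intro h
      have : IsSquare ((2 : ℕ) : ℚ) := ⟨w, by rw [← hw, h]; norm_num⟩
      exact Nat.prime_two.prime.not_isSquare (Rat.isSquare_natCast_iff.1 this)
    have := h0 0; have := h0 1; have := h0 2; have := h0 3
    have := h0 4; have := h0 5; have := h0 6; have := h0 7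
    have h8 : y 8 < 2 := lt_of_le_of_ne (by linarith) hne
    linarith

theorem form (σ : ℤ) (x : ℚ) : 0 < (σ : ℚ) * x ↔ ∃ y : Fin 9 → ℚ,
    (∀ j : Fin 2, ((![σ, 0] j : ℤ) : ℚ) * x +
      (∑ l : Fin 9, ((![![-1, -1, -1, -1, -1, -1, -1, -1, 0], ![1, 1, 1, 1, 0, 0, 0, 0, 1]] j l :
        ℤ) : ℚ) * y l) + ((![0, -2] j : ℤ) : ℚ) = 0) ∧
    (∀ j : Fin 9, IsSquare (((0 : ℕ) : ℚ) * x +
      (∑ l : Fin 9, (((if l = j then 1 else 0 : ℕ)) : ℚ) * y l) + ((0 : ℕ) : ℚ))) := by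
  rw [pos_iff]
  refine exists_congr fun y => ?_
  simp only [Fin.forall_fin_two, Fin.sum_univ_succ]
  simp
  constructor
  · rintro ⟨h1, h2, h3⟩
    refine ⟨⟨by linarith, by linarith⟩, fun j => ?_⟩
    have := h3 j
    fin_cases j <;> simpa using this
  · rintro ⟨⟨h1, h2⟩, h3⟩
    refine ⟨by linarith, by linarith, fun j => ?_⟩
    have := h3 j
    fin_cases j <;> simpa using this

theorem parts : PE {x : ℚ | x ≠ 0} ∧ PE {x : ℚ | 0 < x} := by
  constructor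
  · refine ⟨2, 9, 2, 9, fun i => ![![1, -1] i, 0],
      fun _ => ![![-1, -1, -1, -1, -1, -1, -1, -1, 0], ![1, 1, 1, 1, 0, 0, 0, 0, 1]],
      fun _ => ![0, -2], fun _ _ => 0, fun _ j l => if l = j then 1 else 0, fun _ _ => 0,
      fun x => ?_⟩
    simp only [← form, Fin.exists_fin_two]
    simp only [Set.mem_ofPred_eq, Matrix.cons_val_zero, Matrix.cons_val_one, Int.cast_one,
      Int.cast_neg, one_mul, neg_mul, Left.neg_pos_iff]
    exact ne_iff_gt_or_lt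
  · refine ⟨1, 9, 2, 9, fun _ => ![1, 0],
      fun _ => ![![-1, -1, -1, -1, -1, -1, -1, -1, 0], ![1, 1, 1, 1, 0, 0, 0, 0, 1]],
      fun _ => ![0, -2], fun _ _ => 0, fun _ j l => if l = j then 1 else 0, fun _ _ => 0,
      fun x => ?_⟩
    simp only [← form]
    simp

end Pool.Agent.Results.MP_cd0533_lc.Nonzero
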